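import Pool.Agent.Helper95.RK.DefsK

/-! # Basic lemmas on `ℂᵇ × ℂᵏ` -/

open Complex Metric Set Filter Topology
open scoped ContDiff ComplexConjugate ComplexOrder Matrix

namespace Pool.Agent.Helper95.RK

open Pool.Agent.Helper95.Lin Pool.Agent.Helper16.Abund Pool.Agent.Helper10.SP

variable {b k : ℕ}

@[simp] theorem base_ptK (z : Cn b) (w : Cn k) : base (ptK z w) = z := by
  funext i; simp [base, ptK]

@[simp] theorem fib_ptK (z : Cn b) (w : Cn k) : fib (ptK z w) = w := by
  funext i; simp [fib, ptK]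

@[simp] theorem ptK_base_fib (x : Cn (b + k)) : ptK (base x) (fib x) = x := by
  funext i
  refine Fin.addCases (fun j => ?_) (fun j => ?_) i <;> simp [ptK, base, fib]

theorem ptK_castAdd (z : Cn b) (w : Cn k) (a : Fin b) : ptK z w (Fin.castAdd k a) = z a := by
  simp [ptK]

theorem ptK_natAdd (z : Cn b) (w : Cn k) (i : Fin k) : ptK z w (Fin.natAdd b i) = w i := by
  simp [ptK]

theorem ext_base_fib {x y : Cn (b + k)} (h1 : base x = base y) (h2 : fib x = fib y) : x = y := by
  rw [← ptK_base_fib x, ← ptK_base_fib y, h1, h2]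

/-- `base` as a continuous linear map. -/
noncomputable def bsL (b k : ℕ) : Cn (b + k) →L[ℂ] Cn b :=
  ContinuousLinearMap.pi fun i => ContinuousLinearMap.proj (Fin.castAdd k i)

/-- `fib` as a continuous linear map. -/
noncomputable def fbL (b k : ℕ) : Cn (b + k) →L[ℂ] Cn k :=
  ContinuousLinearMap.pi fun i => ContinuousLinearMap.proj (Fin.natAdd b i)

@[simp] theorem bsL_apply (x : Cn (b + k)) : bsL b k x = base x := rfl

@[simp] theorem fbL_apply (x : Cn (b + k)) : fbL b k x = fib x := rfl

theorem base_add (x y : Cn (b + k)) : base (x + y) = base x + base y := rfl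

theorem fib_add (x y : Cn (b + k)) : fib (x + y) = fib x + fib y := rfl

theorem base_sub (x y : Cn (b + k)) : base (x - y) = base x - base y := rfl

theorem fib_sub (x y : Cn (b + k)) : fib (x - y) = fib x - fib y := rfl

theorem base_smul (c : ℂ) (x : Cn (b + k)) : base (c • x) = c • base x := rfl

theorem fib_smul (c : ℂ) (x : Cn (b + k)) : fib (c • x) = c • fib x := rfl

@[simp] theorem base_zero' : base (0 : Cn (b + k)) = 0 := rfl

@[simp] theorem fib_zero' : fib (0 : Cn (b + k)) = 0 := rfl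

theorem ptK_add (z z' : Cn b) (w w' : Cn k) : ptK (z + z') (w + w') = ptK z w + ptK z' w' := by
  apply ext_base_fib <;> simp [base_add, fib_add]

theorem ptK_smul (c : ℂ) (z : Cn b) (w : Cn k) : ptK (c • z) (c • w) = c • ptK z w := by
  apply ext_base_fib <;> simp [base_smul, fib_smul]

@[simp] theorem ptK_zero : ptK (0 : Cn b) (0 : Cn k) = 0 := by
  apply ext_base_fib <;> simp

/-- `(z, w) ↦ ptK z w` as a continuous linear map. -/
noncomputable def ptL (b k : ℕ) : Cn b × Cn k →L[ℂ] Cn (b + k) :=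
  LinearMap.toContinuousLinearMap
    { toFun := fun p => ptK p.1 p.2
      map_add' := fun p q => ptK_add p.1 q.1 p.2 q.2
      map_smul' := fun c p => ptK_smul c p.1 p.2 }

@[simp] theorem ptL_apply (p : Cn b × Cn k) : ptL b k p = ptK p.1 p.2 := rfl

theorem norm_ptK (z : Cn b) (w : Cn k) : ‖ptK z w‖ = max ‖z‖ ‖w‖ := by
  apply le_antisymm
  · refine (pi_norm_le_iff_of_nonneg (le_max_of_le_left (norm_nonneg z))).2 fun i => ?_
    refine Fin.addCases (fun j => ?_) (fun j => ?_) i
    · rw [ptK_castAdd]; exact (norm_le_pi_norm z j).trans (le_max_left _ _)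
    · rw [ptK_natAdd]; exact (norm_le_pi_norm w j).trans (le_max_right _ _)
  · refine max_le ?_ ?_
    · refine (pi_norm_le_iff_of_nonneg (norm_nonneg _)).2 fun j => ?_
      have := norm_le_pi_norm (ptK z w) (Fin.castAdd k j)
      rwa [ptK_castAdd] at this
    · refine (pi_norm_le_iff_of_nonneg (norm_nonneg _)).2 fun j => ?_
      have := norm_le_pi_norm (ptK z w) (Fin.natAdd b j)
      rwa [ptK_natAdd] at this

theorem norm_base_le (x : Cn (b + k)) : ‖base x‖ ≤ ‖x‖ :=
  (pi_norm_le_iff_of_nonneg (norm_nonneg _)).2 fun j => norm_le_pi_norm x (Fin.castAdd k j)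

theorem norm_fib_le (x : Cn (b + k)) : ‖fib x‖ ≤ ‖x‖ :=
  (pi_norm_le_iff_of_nonneg (norm_nonneg _)).2 fun j => norm_le_pi_norm x (Fin.natAdd b j)

theorem isOpen_tubeK {D : Set (Cn b)} (hD : IsOpen D) : IsOpen (tubeK k D) :=
  hD.preimage (bsL b k).continuous

theorem isOpen_prodK {U : Set (Cn b)} {V : Set (Cn k)} (hU : IsOpen U) (hV : IsOpen V) :
    IsOpen (prodK U V) :=
  (hU.preimage (bsL b k).continuous).inter (hV.preimage (fbL b k).continuous)

theorem prodK_univ (U : Set (Cn b)) : prodK U (univ : Set (Cn k)) = tubeK k U := by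
  ext x; simp [prodK, tubeK]

theorem ball_prodK (x : Cn (b + k)) (r : ℝ) :
    ball x r = prodK (ball (base x) r) (ball (fib x) r) := by
  ext y
  simp only [mem_ball, dist_eq_norm, prodK, mem_setOf_eq]
  rw [show y - x = ptK (base y - base x) (fib y - fib x) by
    apply ext_base_fib <;> simp [base_sub, fib_sub], norm_ptK, max_lt_iff]

theorem convex_prodK {U : Set (Cn b)} {V : Set (Cn k)} (hU : Convex ℝ U) (hV : Convex ℝ V) :
    Convex ℝ (prodK U V) := by
  intro x hx y hy s t hs ht hst
  exact ⟨hU hx.1 hy.1 hs ht hst, hV hx.2 hy.2 hs ht hst⟩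

@[simp] theorem base_ef (i : Fin k) : base (ef b i) = 0 := by
  funext a
  have : Fin.castAdd k a ≠ Fin.natAdd b i := by
    intro h
    have := congrArg Fin.val h
    simp at this
    omega
  simp [base, ef, this]

@[simp] theorem fib_ef (i : Fin k) : fib (ef b i) = Pi.single i 1 := by
  funext j
  by_cases h : j = i
  · subst h; simp [fib, ef]
  · have h' : Fin.natAdd b j ≠ Fin.natAdd b i := by
      intro h2; apply h; simpa using h2
    simp [fib, ef, h, h']

theorem ef_eq (i : Fin k) : ef b i = ptK 0 (Pi.single i 1) := by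
  apply ext_base_fib <;> simp

theorem ecast_eq (a : Fin b) :
    (Pi.single (Fin.castAdd k a) 1 : Cn (b + k)) = ptK (Pi.single a 1) 0 := by
  apply ext_base_fib
  · rw [base_ptK]
    funext c
    by_cases h : c = a
    · subst h; simp [base]
    · have h' : Fin.castAdd k c ≠ Fin.castAdd k a := by
        intro h2; apply h; simpa using h2
      simp [base, h]
  · rw [fib_ptK]
    funext j
    have : Fin.natAdd b j ≠ Fin.castAdd k a := by
      intro h
      have := congrArg Fin.val h
      simp at this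
      omega
    simp [fib, this]

theorem fbl_isHermitian {A : Matrix (Fin (b + k)) (Fin (b + k)) ℂ} (h : A.IsHermitian) :
    (fbl A).IsHermitian := h.submatrix _

theorem fbl_posDef {A : Matrix (Fin (b + k)) (Fin (b + k)) ℂ} (h : A.PosDef) :
    (fbl A).PosDef := h.submatrix (Fin.natAdd_injective k b)

theorem MB.mul {A B : Matrix (Fin k) (Fin k) ℂ} {C D : ℝ} (hC : 0 ≤ C) (hA : MB A C)
    (hB : MB B D) : MB (A * B) (C * D) := by
  intro v
  rw [← Matrix.mulVec_mulVec, mul_assoc]
  exact (hA _).trans (mul_le_mul_of_nonneg_left (hB v) hC)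

theorem MB.add {A B : Matrix (Fin k) (Fin k) ℂ} {C D : ℝ} (hA : MB A C) (hB : MB B D) :
    MB (A + B) (C + D) := by
  intro v
  rw [Matrix.add_mulVec, add_mul]
  exact (norm_add_le _ _).trans (add_le_add (hA v) (hB v))

theorem MB.mono {A : Matrix (Fin k) (Fin k) ℂ} {C D : ℝ} (hA : MB A C) (h : C ≤ D) : MB A D :=
  fun v => (hA v).trans (mul_le_mul_of_nonneg_right h (norm_nonneg v))

theorem MB.one : MB (1 : Matrix (Fin k) (Fin k) ℂ) 1 := fun v => by simp

theorem MB.entry {A : Matrix (Fin k) (Fin k) ℂ} {C : ℝ} (hA : MB A C) (i j : Fin k) :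
    ‖A i j‖ ≤ C := by
  have h := hA (Pi.single j 1)
  have h2 : ‖(Pi.single j 1 : Cn k)‖ = 1 := by
    rw [Pi.norm_single]; simp
  rw [h2, mul_one] at h
  refine le_trans ?_ h
  have h3 := norm_le_pi_norm (A *ᵥ (Pi.single j 1 : Cn k)) i
  simpa using h3

theorem MB.of_entry {A : Matrix (Fin k) (Fin k) ℂ} {C : ℝ} (hA : ∀ i j, ‖A i j‖ ≤ C) :
    MB A (k * C) := by
  intro v
  rcases isEmpty_or_nonempty (Fin k) with he | hne
  · have h1 : ‖A *ᵥ v‖ = 0 := by
      rw [norm_eq_zero]; funext i; exact he.elim i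
    have h2 : ‖v‖ = 0 := by rw [norm_eq_zero]; funext i; exact he.elim i
    rw [h1, h2]; simp
  · have hC : 0 ≤ C := (norm_nonneg _).trans (hA (Classical.arbitrary _) (Classical.arbitrary _))
    refine (pi_norm_le_iff_of_nonneg (by positivity)).2 fun i => ?_
    rw [Matrix.mulVec, dotProduct]
    calc ‖∑ j, A i j * v j‖ ≤ ∑ j, ‖A i j * v j‖ := norm_sum_le _ _
      _ ≤ ∑ _j : Fin k, C * ‖v‖ := by
          refine Finset.sum_le_sum fun j _ => ?_
          rw [norm_mul]
          exact mul_le_mul (hA i j) (norm_le_pi_norm v j) (norm_nonneg _) hC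
      _ = k * C * ‖v‖ := by rw [Finset.sum_const, Finset.card_univ, Fintype.card_fin]; ring

end Pool.Agent.Helper95.RK
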