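import Pool.Agent.Helper95.RK.GoalsB

/-! # Goals C: special charts, the leaf map, completeness (Sections C'', D' of the paper) -/

open Complex Metric Set Filter Topology MeasureTheory
open scoped ContDiff ComplexConjugate ComplexOrder Manifold Matrix

namespace Pool.Agent.Helper95.RK

open Pool.Agent.Helper95.Lin Pool.Agent.Helper16.Abund Pool.Agent.Helper92.Orb Pool.Agent.Helper10.SP

universe u v

/-! ## Holomorphic Frobenius theorem in graph form -/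

/-- FLOW. Holomorphic flows.
PROOF. `E` is linearly homeomorphic to `ℂⁿ`. As `Helper40/SP/STR.lean`: for each `y` near `p` and `t` the real
solution of `x' = t • ξ(x)`, `x 0 = y`, exists on `[0, 1]` (Picard-Lindelöf, `|t| ≤ r` small), the Euler approximations
`eul ξ (t/N) N y` are holomorphic in `(y, t)` and converge uniformly (`eul_conv`), so the time one map
`φ (y, t)` is holomorphic; `φ (y, s t)` is the solution of the ray equation, so `d/ds φ (y, s t) = t ξ (φ (y, s t))`, which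
gives the derivative in `t` (for `t ≠ 0`, and by continuity or uniqueness for `t = 0`; group property). -/
def S_FLOW : Prop := ∀ (E : Type) [NormedAddCommGroup E] [NormedSpace ℂ E]
  [FiniteDimensional ℂ E] (W : Set E) (ξ : E → E), IsOpen W → DifferentiableOn ℂ ξ W → ∀ p ∈ W,
  ∃ r > 0, ∃ φ : E × ℂ → E, DifferentiableOn ℂ φ (ball p r ×ˢ ball (0 : ℂ) r) ∧
    (∀ y ∈ ball p r, φ (y, 0) = y) ∧ ∀ y ∈ ball p r, ∀ t ∈ ball (0 : ℂ) r,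
      φ (y, t) ∈ W ∧ HasDerivAt (fun s => φ (y, s)) (ξ (φ (y, t))) t

/-- PFAFF. The Frobenius theorem in graph form. USES: FLOW.
PROOF. Write `x = (z, w)`, `x₀ = (z₀, w₀)`. On `E = Cn m × Cn k × Cn k × F` consider the field
`Ξ (z, w, v, y) = (0, v, 0, ∑ i, v i • f i (ptK z w, y))` near `(z₀, w₀, 0, y₀ z₀)`; flow `φ` for times `|t| < r` (`FLOW`).
`T := r/2`, `y (z, w) := ` the last component of `φ ((z, w₀, T⁻¹ (w - w₀), y₀ z), T)` for `(z, w)` near `x₀`. By scaling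
(uniqueness of solutions: the curve `s ↦ φ ((z, w₀, v, y₀ z), s)` has `w`-component `w₀ + s v`) the function
`Y(s) := y (z, w₀ + s (w - w₀))`, `s ∈ [0, 1]`, satisfies `Y' = ∑ i, (w - w₀)_i f_i ((z, w₀ + s(w - w₀)), Y)`, `Y(0) = y₀ z`.
(The scaled curves for parameters `v` and `c v` are related by `s ↦ c s`.) Put `E_i(s) := s (fderiv y) (z, w₀ + s (w - w₀)) (ef i)
- s f_i ((z, w₀ + s(w - w₀)), Y(s))`, i.e. the derivative of `(z, w) ↦ y (z, w₀ + s (w - w₀))` in the direction `ef i`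
minus `s f_i`. Differentiate the equation of `Y` with respect to `w_i` (all functions are holomorphic in
`(z, w, s)`; mixed derivatives commute): `E_i' = ∑ j, (w - w₀)_j D_y f_j (E_i)` by the integrability condition
(`d/ds (s f_i) = f_i + s (D_x f_i (w - w₀) + D_y f_i (Y'))`), `E_i(0) = 0`, so `E_i = 0` (Gronwall /
`ODE_solution_unique`); `s = 1`: `fderiv y (z,w) (ef i) = f_i`. -/
def S_PFAFF : Prop := ∀ {m k : ℕ} (F : Type) [NormedAddCommGroup F] [NormedSpace ℂ F]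
  [FiniteDimensional ℂ F] (W : Set (Cn (m + k) × F)) (f : Fin k → Cn (m + k) × F → F), IsOpen W →
  (∀ i, DifferentiableOn ℂ (f i) W) →
  (∀ w ∈ W, ∀ i j, fderiv ℂ (f j) w (ef m i, f i w) = fderiv ℂ (f i) w (ef m j, f j w)) →
  ∀ (x₀ : Cn (m + k)) (ρ : ℝ) (y₀ : Cn m → F), 0 < ρ →
  DifferentiableOn ℂ y₀ (ball (base x₀) ρ) → (x₀, y₀ (base x₀)) ∈ W →
  ∃ r > 0, ∃ y : Cn (m + k) → F, DifferentiableOn ℂ y (ball x₀ r) ∧
    (∀ x ∈ ball x₀ r, (x, y x) ∈ W ∧ ∀ i, fderiv ℂ y x (ef m i) = f i (x, y x)) ∧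
    ∀ x ∈ ball x₀ r, fib x = fib x₀ → y x = y₀ (base x)

/-- AFFC. Affine coordinates on the leaves. USES: WIRT, PFAFF.
PROOF. Let `Γ_i = chrM g i`; `G_i := Γ_i/2` is holomorphic on `W` (`cdb_l` vanishes for fibre `l` by `FlatG.flat` and for
base `l` by the hypothesis; `WIRT`). `∂_l G_i - ∂_i G_l = G_l G_i - G_i G_l` and `(G_i)_jm = (G_j)_im` (`kah`).
`PFAFF` with `F = (Fin k → ℂ) × (Fin k → Fin k → ℂ)`, `y = (t, e)`: `f_i (x, (t, e)) = ((e i ·), G_i x e)`, i.e. `∂_i t^l = e i l`,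
`∂_i e_jl = ∑ m, (G_i)_jm e_ml`; integrability as in the paper C''2. Initial values `t = 0`, `e = 1` at `w = w₀ := 0`. So near
`0` there are `t(z,w)`, `e(z,w)` with `∂_i t^l = e_il`, `det e ≠ 0`. `S (z, w) := (z, t(z, w))` is holomorphic, its
derivative at `0` is invertible and block triangular, `S 0 = 0`; `σ` := its local inverse (inverse function theorem), restricted
to a small polydisc. `base (σ x) = base x`. `Jfq σ x = (e (σ x))⁻¹` (inverse of the fibre block `∂_i t^l = e_il`).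
`g^new := Jfq σ x * g (σ x) * (Jfq σ x)ᴴ = e⁻¹ g e⁻ᴴ` at `σ x`. `∂_i (e⁻¹ g) = - e⁻¹ G_i g + e⁻¹ G_i g = 0` and `e⁻ᴴ` is
antiholomorphic, so `cd_i (e⁻¹ g e⁻ᴴ) = 0` for all fibre `i`; it is Hermitian, so also `cdb_i = 0`; the fibres of
the polydisc are connected: it depends on `base x` only. -/
def S_AFFC : Prop := ∀ {b k : ℕ} (r : ℝ), 0 < r →
  ∀ (g : Cn (b + k) → Matrix (Fin k) (Fin k) ℂ) (Φ : Cn (b + k) → ℝ),
  FlatG (prodK (ball (0 : Cn b) r) (ball (0 : Cn k) r)) g Φ →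
  (∀ x ∈ prodK (ball (0 : Cn b) r) (ball (0 : Cn k) r), ∀ (a : Fin b) (i j l : Fin k),
    cdb (Fin.castAdd k a) (fun y => chrM g i y j l) x = 0) →
  ∃ r' > 0, ∃ (σ : Cn (b + k) → Cn (b + k)) (Hf : Cn b → Matrix (Fin k) (Fin k) ℂ),
    DifferentiableOn ℂ σ (prodK (ball (0 : Cn b) r') (ball (0 : Cn k) r')) ∧
    InjOn σ (prodK (ball (0 : Cn b) r') (ball (0 : Cn k) r')) ∧
    MapsTo σ (prodK (ball (0 : Cn b) r') (ball (0 : Cn k) r'))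
      (prodK (ball (0 : Cn b) r) (ball (0 : Cn k) r)) ∧ σ 0 = 0 ∧
    (∀ i j, ContDiffOn ℝ ∞ (fun z => Hf z i j) (ball (0 : Cn b) r')) ∧
    ∀ x ∈ prodK (ball (0 : Cn b) r') (ball (0 : Cn k) r'), (fderiv ℂ σ x).det ≠ 0 ∧
      base (σ x) = base x ∧ Jfq σ x * g (σ x) * (Jfq σ x)ᴴ = Hf (base x)

/-! ## Special charts -/

/-- `ψ` is a local parametrization on `U × Δ` in which the density is `Ψ(z)` with positive Levi form and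
the leaf metric is `Hf(z)`. -/
structure SpecK {b k : ℕ} {M : Type v} [TopologicalSpace M] [ChartedSpace (Fin (b + k) → ℂ) M]
    (v : M → ℝ) (q : M → Matrix (Fin (b + k)) (Fin (b + k)) ℂ) (U : Set (Cn b)) (Δ : Set (Cn k))
    (ψ : Cn (b + k) → M) (Ψ : Cn b → ℝ) (Hf : Cn b → Matrix (Fin k) (Fin k) ℂ) : Prop where
  par : Par (b + k) ψ (prodK U Δ)
  smP : ContDiffOn ℝ ∞ Ψ U
  pos : ∀ z ∈ U, ∀ e, e ≠ 0 → 0 < lev Ψ z e
  pot : ∀ x ∈ prodK U Δ, lpot (b + k) v ψ x = Ψ (base x)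
  smH : ∀ i j, ContDiffOn ℝ ∞ (fun z => Hf z i j) U
  posH : ∀ z ∈ U, (Hf z).PosDef
  leaf : ∀ x ∈ prodK U Δ, gm q ψ x = Hf (base x)

/-- The isometry relations satisfied by `t` at `z`. -/
structure PotRK {b k : ℕ} (Ψ Ψ' : Cn b → ℝ) (Hf Hf' : Cn b → Matrix (Fin k) (Fin k) ℂ)
    (t : TriK b k) (z : Cn b) : Prop where
  detA : (t.A z).det ≠ 0
  detg : (fderiv ℂ t.g z).det ≠ 0
  pot : Ψ z = Ψ' (t.g z) + Real.log (‖(fderiv ℂ t.g z).det‖ ^ 2) +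
    Real.log (‖(t.A z).det‖ ^ 2)
  herm : ∀ u w : Cn k, hermi (Hf' (t.g z)) (t.A z *ᵥ u) (t.A z *ᵥ w) = hermi (Hf z) u w

/-- SPECK. Special charts exist. USES: PARBK, PMB, BZERO, AFFC.
PROOF. `ψ₀`, `r` from `FlatFol.chart` at `p`. `g := gm q ψ₀`, `Φ := lpot v ψ₀`: `FlatG` (`FlatFol.flat`), `BZERO`; `AFFC`: `σ`,
`Hf`. `ψ := ψ₀ ∘ σ`. `gm q ψ x = Jfq σ x * g (σ x) * (Jfq σ x)ᴴ = Hf (base x)` (`PMB` (2); `base (fderiv σ x (ef i)) = 0` since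
`base (σ x) = base x`). `ψ` is again `FolPar` (`lev (lpot ψ) x e = lev Φ (σ x) (Dσ e)`, `base (Dσ e) = base e`), so `FlatFol.flat`
gives `cd_i (lpot ψ) = cd_i (log det (Hf ∘ base)) = 0` for fibre `i`, also `cdb_i` (real function): `lpot ψ x = Ψ (base x)`,
`Ψ z := lpot ψ (ptK z 0)` (the fibres are balls). `Ψ` smooth, `lev Ψ z e = lev (lpot ψ) (ptK z 0) (ptK e 0) > 0` for `e ≠ 0`. -/
def S_SPECK : Prop := ∀ {b k : ℕ} {G : Type u} {M : Type v} [Group G] [MulAction G M]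
  [TopologicalSpace M] [T2Space M] [ConnectedSpace M] [ChartedSpace (Fin (b + k) → ℂ) M]
  [IsManifold 𝓘(ℂ, Fin (b + k) → ℂ) ω M] {h q : M → Matrix (Fin (b + k)) (Fin (b + k)) ℂ}
  {v : M → ℝ}, 0 < b → DataK b k G M h v → FlatFol b k G M q v → ∀ p : M, ∃ r > 0,
  ∃ (ψ : Cn (b + k) → M) (Ψ : Cn b → ℝ) (Hf : Cn b → Matrix (Fin k) (Fin k) ℂ),
    SpecK v q (ball (0 : Cn b) r) (ball (0 : Cn k) r) ψ Ψ Hf ∧
    InjOn ψ (prodK (ball (0 : Cn b) r) (ball (0 : Cn k) r)) ∧ ψ 0 = p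

/-- AFFTK. Transition maps between special charts are affine in the fibre coordinates. USES: WIRT, WCH.
PROOF. `lev Ψ₁ (base x) (base e) = lev Ψ₂ (base (τ x)) (base (Dτ x e))` (`WCH`), so `base (Dτ (ef i)) = 0` by positivity
of `Ψ₂`: `base ∘ τ` does not depend on the fibre variable (ball): `g z := base (τ (ptK z w₀))`. Let
`J (z, w) := Jfq τ (ptK z w)`. Fix `z`: `J(w) Hf₂(g z) J(w)ᴴ = Hf₁ z` for all `w` in the ball. With `Hf₁ = Q₁ Q₁ᴴ`,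
`Hf₂ = Q₂ Q₂ᴴ` the holomorphic matrix `Q₁⁻¹ J(w) Q₂` is unitary, so its Hilbert-Schmidt norm is the constant `√k`:
a holomorphic map to `EuclideanSpace ℂ (Fin k × Fin k)` (strictly convex) with constant norm on a connected
open set is constant (`Complex.eqOn_of_isPreconnected_of_isMaxOn_norm`). So `J (z, w) = J (z, w₀)`; `A z := (J (z, w₀))ᵀ`,
`β z := fib (τ (ptK z w₀)) - A z *ᵥ w₀`: `fib (τ (ptK z w)) = A z *ᵥ w + β z` (equal derivatives in `w`, equal at `w₀`).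
`det Dτ = det Dg det A` (block triangular). The hypothesis `met` for the fibre vectors is the last item of `PotRK`. -/
def S_AFFTK : Prop := ∀ {b k : ℕ} (U U' : Set (Cn b)) (w₀ : Cn k) (r : ℝ), IsOpen U → IsOpen U' →
  0 < r → ∀ (Ψ₁ Ψ₂ : Cn b → ℝ) (Hf₁ Hf₂ : Cn b → Matrix (Fin k) (Fin k) ℂ),
  ContDiffOn ℝ ∞ Ψ₁ U → ContDiffOn ℝ ∞ Ψ₂ U' → (∀ z ∈ U', ∀ e, e ≠ 0 → 0 < lev Ψ₂ z e) →
  (∀ z ∈ U, (Hf₁ z).PosDef) → (∀ z ∈ U', (Hf₂ z).PosDef) →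
  ∀ τ : Cn (b + k) → Cn (b + k), DifferentiableOn ℂ τ (prodK U (ball w₀ r)) →
  (∀ x ∈ prodK U (ball w₀ r), base (τ x) ∈ U' ∧ (fderiv ℂ τ x).det ≠ 0 ∧
    Ψ₁ (base x) = Ψ₂ (base (τ x)) + Real.log (‖(fderiv ℂ τ x).det‖ ^ 2) ∧
    Jfq τ x * Hf₂ (base (τ x)) * (Jfq τ x)ᴴ = Hf₁ (base x)) →
  ∃ t : TriK b k, t.HolOn U ∧ (∀ z ∈ U, t.g z ∈ U' ∧ PotRK Ψ₁ Ψ₂ Hf₁ Hf₂ t z) ∧
    ∀ z ∈ U, ∀ w ∈ ball w₀ r, τ (ptK z w) = ptK (t.g z) (t.ap z w)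

/-- ACBK. A priori bounds. USES: WCH, LMF.
PROOF. The bounds for `Dg` as `S_ACB` (`Helper10/SP/GoalsC.lean`, proved in `Helper86/SP/ACB.lean`; `log |det A|²` is
pluriharmonic: `det A` is holomorphic and nonzero). `MB`: by compactness there are `0 < c₁ ≤ c₂` with
`c₁ ‖u‖² ≤ (hermi (Hf z) u u).re ≤ c₂ ‖u‖²` for `z ∈ K`, the same for `Hf'` on `K'`; so `c₁' ‖A u‖² ≤
(hermi (Hf' (g z)) (A u) (A u)).re = (hermi (Hf z) u u).re ≤ c₂ ‖u‖²` and conversely; `A⁻¹ u = v` with `A v = u`. -/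
def S_ACBK : Prop := ∀ {b k : ℕ} (U U' K K' : Set (Cn b)) (Ψ Ψ' : Cn b → ℝ)
  (Hf Hf' : Cn b → Matrix (Fin k) (Fin k) ℂ), IsOpen U → IsOpen U' →
  IsCompact K → K ⊆ U → IsCompact K' → K' ⊆ U' → ContDiffOn ℝ ∞ Ψ U → ContDiffOn ℝ ∞ Ψ' U' →
  (∀ z ∈ U, ∀ e, e ≠ 0 → 0 < lev Ψ z e) → (∀ z ∈ U', ∀ e, e ≠ 0 → 0 < lev Ψ' z e) →
  (∀ i j, ContinuousOn (fun z => Hf z i j) U) → (∀ i j, ContinuousOn (fun z => Hf' z i j) U') →
  (∀ z ∈ U, (Hf z).PosDef) → (∀ z ∈ U', (Hf' z).PosDef) →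
  ∃ C : ℝ, 1 ≤ C ∧ ∀ (V : Set (Cn b)) (t : TriK b k), IsOpen V → V ⊆ U → t.HolOn V →
    MapsTo t.g V U' → (∀ z ∈ V, PotRK Ψ Ψ' Hf Hf' t z) → ∀ z ∈ V, z ∈ K → t.g z ∈ K' →
    MB (t.A z) C ∧ MB (t.A z)⁻¹ C ∧ ∀ e, ‖fderiv ℂ t.g z e‖ ≤ C * ‖e‖ ∧
      ‖e‖ ≤ C * ‖fderiv ℂ t.g z e‖

/-- LIPPK. Lipschitz bound. USES: ACBK. PROOF. As `S_LIPP` (`Helper57/SP/LIPP.lean`). -/
def S_LIPPK : Prop := ∀ {b k N : ℕ} (c : Fin N → Cn b) (R r : ℝ) (Φ : Cn b → ℝ)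
  (Hf : Cn b → Matrix (Fin k) (Fin k) ℂ), r < R → ContDiffOn ℝ ∞ Φ (Bd c R) →
  (∀ z ∈ Bd c R, ∀ e, e ≠ 0 → 0 < lev Φ z e) → (∀ i j, ContinuousOn (fun z => Hf z i j) (Bd c R)) →
  (∀ z ∈ Bd c R, (Hf z).PosDef) →
  ∃ C : ℝ, 1 ≤ C ∧ ∀ (V : Set (Cn b)) (t : TriK b k), IsOpen V → Convex ℝ V → V ⊆ Bd c r →
    t.HolOn V → MapsTo t.g V (Bd c r) → (∀ z ∈ V, PotRK Φ Φ Hf Hf t z) →
    (∀ z ∈ V, MB (t.A z) C ∧ MB (t.A z)⁻¹ C) ∧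
    ∀ x ∈ V, ∀ y ∈ V, ‖t.g x - t.g y‖ ≤ C * ‖x - y‖

/-- TRSK. Transition of special maps. USES: PARBK, PMB, AFFTK.
PROOF. As `S_TRS` (`Helper56/SP/TRS.lean`): `PARBK` (3) gives `τ` near `x`; on a small product of balls the potentials and
(by `PMB`, `InvMetric`) the leaf metrics correspond: `Jfq τ y * Hf' (base (τ y)) * (Jfq τ y)ᴴ = Hf (base y)`: note
`hermi (pm q (γ • ψ)) = hermi (pm q ψ)`, `γ • ψ = ψ' ∘ τ`, and `Dτ` maps fibre vectors to fibre vectors (both charts have the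
kernel of the curvature as fibre directions: `lev` relation and positivity). Apply `AFFTK`. -/
def S_TRSK : Prop := ∀ {b k : ℕ} {G : Type u} {M : Type v} [Group G] [MulAction G M]
  [TopologicalSpace M] [T2Space M] [ChartedSpace (Fin (b + k) → ℂ) M]
  [IsManifold 𝓘(ℂ, Fin (b + k) → ℂ) ω M] {h q : M → Matrix (Fin (b + k)) (Fin (b + k)) ℂ}
  {v : M → ℝ}, DataK b k G M h v → FlatFol b k G M q v → ∀ (U U' : Set (Cn b))
  (Δ Δ' : Set (Cn k)) (ψ ψ' : Cn (b + k) → M) (Ψ Ψ' : Cn b → ℝ)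
  (Hf Hf' : Cn b → Matrix (Fin k) (Fin k) ℂ), IsOpen U → IsOpen U' → IsOpen Δ → IsOpen Δ' →
  SpecK v q U Δ ψ Ψ Hf → SpecK v q U' Δ' ψ' Ψ' Hf' → ∀ (γ : G), ∀ x ∈ prodK U Δ,
  ∀ x' ∈ prodK U' Δ', γ • ψ x = ψ' x' →
  ∃ ρ > 0, ∃ t : TriK b k, ball (base x) ρ ⊆ U ∧ ball (fib x) ρ ⊆ Δ ∧
    t.HolOn (ball (base x) ρ) ∧ x' = t.map x ∧
    (∀ z ∈ ball (base x) ρ, t.g z ∈ U' ∧ PotRK Ψ Ψ' Hf Hf' t z) ∧
    ∀ z ∈ ball (base x) ρ, ∀ w ∈ ball (fib x) ρ, t.ap z w ∈ Δ' ∧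
      γ • ψ (ptK z w) = ψ' (ptK (t.g z) (t.ap z w))

/-- FINSPK. A finite family of special charts. USES: SPECK, PARBK, PMB, WCH.
PROOF. As `S_FINSP` (`Helper83/SP/FINSP.lean`); the leaf metric of `ψ' x = ψ ((r/6) • x)` is `(r/6)² Hf ((r/6) z)`. -/
def S_FINSPK : Prop := ∀ {b k : ℕ} {G : Type u} {M : Type v} [Group G] [MulAction G M]
  [TopologicalSpace M] [T2Space M] [ConnectedSpace M] [ChartedSpace (Fin (b + k) → ℂ) M]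
  [IsManifold 𝓘(ℂ, Fin (b + k) → ℂ) ω M] {h q : M → Matrix (Fin (b + k)) (Fin (b + k)) ℂ}
  {v : M → ℝ}, 0 < b → DataK b k G M h v → FlatFol b k G M q v →
  ∃ (N : ℕ) (ψ : Fin N → Cn (b + k) → M) (Ψ : Fin N → Cn b → ℝ)
    (Hf : Fin N → Cn b → Matrix (Fin k) (Fin k) ℂ), 0 < N ∧
    (∀ i, SpecK v q (ball (0 : Cn b) 6) (ball (0 : Cn k) 6) (ψ i) (Ψ i) (Hf i)) ∧
    ∀ p : M, ∃ (γ : G) (i : Fin N), ∃ x ∈ prodK (ball (0 : Cn b) 1) (ball (0 : Cn k) 1),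
      γ • p = ψ i x

/-- EXTSK. The extension step. USES: PARBK, PMB, IDM, TRSK, ACBK, WCH.
PROOF. As `S_EXTS` (`Helper9/SP/EXTS.lean`) with `|a w|` replaced by `‖A z *ᵥ w‖ ≤ C ‖w‖` (`MB`) and discs replaced by
balls of the sup norm of `ℂᵏ` (convex; two balls of the same radius that meet both contain the midpoint of
their centres). The leaf metric of the extension: `PMB` and the last item of `PotRK`. -/
def S_EXTSK : Prop := ∀ {b k : ℕ} {G : Type u} {M : Type v} [Group G] [MulAction G M]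
  [TopologicalSpace M] [T2Space M] [ChartedSpace (Fin (b + k) → ℂ) M]
  [IsManifold 𝓘(ℂ, Fin (b + k) → ℂ) ω M] {h q : M → Matrix (Fin (b + k)) (Fin (b + k)) ℂ}
  {v : M → ℝ}, DataK b k G M h v → FlatFol b k G M q v → ∀ (N : ℕ)
  (ψ : Fin N → Cn (b + k) → M) (Ψ : Fin N → Cn b → ℝ)
  (Hf : Fin N → Cn b → Matrix (Fin k) (Fin k) ℂ),
  (∀ i, SpecK v q (ball (0 : Cn b) 6) (ball (0 : Cn k) 6) (ψ i) (Ψ i) (Hf i)) →
  (∀ p : M, ∃ (γ : G) (i : Fin N), ∃ x ∈ prodK (ball (0 : Cn b) 1) (ball (0 : Cn k) 1),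
    γ • p = ψ i x) →
  ∃ r₀ : ℝ, 0 < r₀ ∧ ∀ (i : Fin N) (ρ : ℝ) (χ : Cn (b + k) → M), 0 < ρ →
    SpecK v q (ball (0 : Cn b) 5) (ball (0 : Cn k) ρ) χ (Ψ i) (Hf i) → ∃ χ' : Cn (b + k) → M,
      SpecK v q (ball (0 : Cn b) 5) (ball (0 : Cn k) (ρ + r₀)) χ' (Ψ i) (Hf i) ∧
      EqOn χ' χ (prodK (ball (0 : Cn b) 5) (ball (0 : Cn k) ρ))

/-- LMAPK. The leaf map. USES: FINSPK, EXTSK, IDM, PARBK, PMB, WCH.
PROOF. As `S_LMAP` (`Helper27/SP/LMAP.lean`). -/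
def S_LMAPK : Prop := ∀ {b k : ℕ} {G : Type u} {M : Type v} [Group G] [MulAction G M]
  [TopologicalSpace M] [T2Space M] [ConnectedSpace M] [ChartedSpace (Fin (b + k) → ℂ) M]
  [IsManifold 𝓘(ℂ, Fin (b + k) → ℂ) ω M] {h q : M → Matrix (Fin (b + k)) (Fin (b + k)) ℂ}
  {v : M → ℝ}, 0 < b → DataK b k G M h v → FlatFol b k G M q v →
  ∃ (N : ℕ) (c : Fin N → Cn b) (E : Cn (b + k) → M) (Φ : Cn b → ℝ)
    (Hf : Cn b → Matrix (Fin k) (Fin k) ℂ), LMapK G v q c 5 E Φ Hf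

/-! ## The étale relation and the pseudogroup of a leaf map -/

/-- The relation of the leaf map over `Bd c r`. -/
def RelK {b k N : ℕ} {G : Type u} {M : Type v} [Group G] [MulAction G M]
    (c : Fin N → Cn b) (r : ℝ) (E : Cn (b + k) → M) (γ : G) (x y : Cn (b + k)) : Prop :=
  RelT (G := G) (tubeK k (Bd c r)) E γ x y

/-- `PMapK` with a given group element. -/
def PMapGK {b k : ℕ} (D : Set (Cn b)) {G : Type u} [Group G]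
    (R : G → Cn (b + k) → Cn (b + k) → Prop) (γ : G) (U : Set (Cn b)) (t : TriK b k) : Prop :=
  IsOpen U ∧ U ⊆ D ∧ t.HolOn U ∧ (∀ z ∈ U, t.g z ∈ D ∧ (t.A z).det ≠ 0) ∧
    ∀ z ∈ U, ∀ w : Cn k, R γ (ptK z w) (ptK (t.g z) (t.ap z w))

/-- LOCPK. Every arrow belongs to a map of the pseudogroup. USES: PARBK, IDM, TRSK.
PROOF. As `S_LOCP` (`Helper58/SP/LOCP.lean`); `LMapK` gives `SpecK v q (Bd c R) univ E Φ Hf` (`prodK_univ`). -/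
def S_LOCPK : Prop := ∀ {b k N : ℕ} {G : Type u} {M : Type v} [Group G] [MulAction G M]
  [TopologicalSpace M] [T2Space M] [ChartedSpace (Fin (b + k) → ℂ) M]
  [IsManifold 𝓘(ℂ, Fin (b + k) → ℂ) ω M] {h q : M → Matrix (Fin (b + k)) (Fin (b + k)) ℂ}
  {v : M → ℝ}, DataK b k G M h v → FlatFol b k G M q v → ∀ (c : Fin N → Cn b) (R : ℝ)
  (E : Cn (b + k) → M) (Φ : Cn b → ℝ) (Hf : Cn b → Matrix (Fin k) (Fin k) ℂ),
  LMapK G v q c R E Φ Hf → ∀ (γ : G) (x y : Cn (b + k)), RelK c R E γ x y →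
  ∃ ρ > 0, ∃ t : TriK b k, PMapGK (Bd c R) (RelK c R E) γ (ball (base x) ρ) t ∧ y = t.map x

/-- PAXK. The pseudogroup axioms and the isometry relations. USES: PARBK, PMB, WCH, IDM.
PROOF. As `S_PAX` (`Helper35/SP/PAX.lean`). `E ∘ t.map = γ • E` on `tubeK U`, `det D(t.map) = det Dg det A`; the
inverse map has `A = (A ∘ g⁻¹)⁻¹`, `β = -(A⁻¹ β) ∘ g⁻¹`; its entries are holomorphic (Cramer). The Hermitian relation:
`PMB`, `InvMetric` and `D(t.map) (0, u) = (0, A u)`. Last item: equality of the maps near one point `(z, w)` gives the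
equality of `g`, `A`, `β` near `z`. -/
def S_PAXK : Prop := ∀ {b k N : ℕ} {G : Type u} {M : Type v} [Group G] [MulAction G M]
  [TopologicalSpace M] [T2Space M] [ChartedSpace (Fin (b + k) → ℂ) M]
  [IsManifold 𝓘(ℂ, Fin (b + k) → ℂ) ω M] {h q : M → Matrix (Fin (b + k)) (Fin (b + k)) ℂ}
  {v : M → ℝ}, DataK b k G M h v → FlatFol b k G M q v → ∀ (c : Fin N → Cn b) (R : ℝ)
  (E : Cn (b + k) → M) (Φ : Cn b → ℝ) (Hf : Cn b → Matrix (Fin k) (Fin k) ℂ),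
  LMapK G v q c R E Φ Hf →
  (∀ γ U t, PMapGK (Bd c R) (RelK (G := G) c R E) γ U t → ∀ z ∈ U, PotRK Φ Φ Hf Hf t z) ∧
  (∀ U, IsOpen U → U ⊆ Bd c R → PMapGK (Bd c R) (RelK (G := G) c R E) 1 U TriK.one) ∧
  (∀ γ γ' U U' U'' t s, PMapGK (Bd c R) (RelK (G := G) c R E) γ U t →
    PMapGK (Bd c R) (RelK c R E) γ' U' s → IsOpen U'' → U'' ⊆ U' → MapsTo s.g U'' U →
    PMapGK (Bd c R) (RelK c R E) (γ * γ') U'' (t.comp s)) ∧
  (∀ γ U t, PMapGK (Bd c R) (RelK (G := G) c R E) γ U t → ∀ z ∈ U, ∃ s U' U'',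
    PMapGK (Bd c R) (RelK c R E) γ⁻¹ U' s ∧ t.g z ∈ U' ∧ IsOpen U'' ∧ z ∈ U'' ∧ U'' ⊆ U ∧
    MapsTo t.g U'' U' ∧ (s.comp t).EqOn TriK.one U'') ∧
  ∀ (γ : G) (z₀ : Cn b) (r : ℝ) t s, PMapGK (Bd c R) (RelK (G := G) c R E) γ (ball z₀ r) t →
    PMapGK (Bd c R) (RelK c R E) γ (ball z₀ r) s → ∀ z ∈ ball z₀ r, ∀ w : Cn k,
    t.g z = s.g z → t.ap z w = s.ap z w → t.EqOn s (ball z₀ r)

/-- FIN1K. Finiteness. USES: PARBK, PAXK. PROOF. As `S_FIN1` (`Helper8/SP/FIN1.lean`). -/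
def S_FIN1K : Prop := ∀ {b k N : ℕ} {G : Type u} {M : Type v} [Group G] [MulAction G M]
  [TopologicalSpace M] [T2Space M] [ChartedSpace (Fin (b + k) → ℂ) M]
  [IsManifold 𝓘(ℂ, Fin (b + k) → ℂ) ω M] {h q : M → Matrix (Fin (b + k)) (Fin (b + k)) ℂ}
  {v : M → ℝ}, DataK b k G M h v → FlatFol b k G M q v → ∀ (c : Fin N → Cn b) (R : ℝ)
  (E : Cn (b + k) → M) (Φ : Cn b → ℝ) (Hf : Cn b → Matrix (Fin k) (Fin k) ℂ),
  LMapK G v q c R E Φ Hf → ∀ (z₀ : Cn b) (r r' ρ : ℝ), 0 < ρ → r' < R → ∀ s : ℕ → TriK b k,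
  (∀ n, PMapK (Bd c R) (RelK (G := G) c R E) (ball z₀ ρ) (s n) ∧ (s n).g z₀ ∈ Bd c r' ∧
    ‖(s n).β z₀‖ ≤ r) → ∃ m l, m ≠ l ∧ (s m).EqOn (s l) (ball z₀ ρ)

/-- BPK. Bounded pairs. USES: PARBK, LOCPK, PAXK. PROOF. As `S_BP` (`Helper55/SP/BP.lean`). -/
def S_BPK : Prop := ∀ {b k N : ℕ} {G : Type u} {M : Type v} [Group G] [MulAction G M]
  [TopologicalSpace M] [T2Space M] [ChartedSpace (Fin (b + k) → ℂ) M]
  [IsManifold 𝓘(ℂ, Fin (b + k) → ℂ) ω M] {h q : M → Matrix (Fin (b + k)) (Fin (b + k)) ℂ}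
  {v : M → ℝ}, DataK b k G M h v → FlatFol b k G M q v → ∀ (c : Fin N → Cn b)
  (E : Cn (b + k) → M) (Φ : Cn b → ℝ) (Hf : Cn b → Matrix (Fin k) (Fin k) ℂ),
  LMapK G v q c 5 E Φ Hf → ∀ W : ℝ, ∃ δ > 0, ∃ C : ℝ, ∀ (γ : G) (x y : Cn (b + k)),
  RelK c 5 E γ x y → base x ∈ Bd c 3 → base y ∈ Bd c 3 → ‖fib x‖ ≤ W → ‖fib y‖ ≤ W →
  ∃ t : TriK b k, PMapGK (Bd c 5) (RelK c 5 E) γ (ball (base x) δ) t ∧
    MapsTo t.g (ball (base x) δ) (Bd c 4) ∧ (∀ z ∈ ball (base x) δ, ‖t.β z‖ ≤ C) ∧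
    y = t.map x

/-- The conclusion of the extension theorem for a leaf map of radius `5`. -/
def Ext5K {b k N : ℕ} (c : Fin N → Cn b) (P : Set (Cn b) → TriK b k → Prop) (δ C : ℝ) : Prop :=
  0 < δ ∧ 1 ≤ C ∧ ∀ z₀ ∈ Bd c 3, ∀ U t, P U t → z₀ ∈ U → t.g z₀ ∈ Bd c 3 →
    ∃ t' U', P (ball z₀ δ) t' ∧ IsOpen U' ∧ z₀ ∈ U' ∧ U' ⊆ U ∧ t'.EqOn t U' ∧
      (∀ x ∈ ball z₀ δ, t'.g x ∈ Bd c 4 ∧ MB (t'.A x) C ∧ MB (t'.A x)⁻¹ C ∧
        ‖t'.β x‖ ≤ C * (1 + ‖t'.β z₀‖)) ∧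
      ∀ x ∈ ball z₀ δ, ∀ y ∈ ball z₀ δ, ‖t'.g x - t'.g y‖ ≤ C * ‖x - y‖

/-- EXT5K. The extension theorem (chains). USES: LOCPK, PAXK, LIPPK, BPK.
PROOF. As `S_EXT5` (`Helper10/SP/GoalsC.lean`, proved in `Helper38/SP/EXT5.lean`) with `w⋆ := - (A z₀)⁻¹ *ᵥ β z₀` (so
that `t` maps `(z₀, w⋆)` to `(y₀, 0)`), `‖A v‖ ≤ C₁ ‖v‖`, `q = A⁻¹ β`, `q_{r s}(x) = q_s(x) + (A_s(x))⁻¹ q_r(g_s x)`:
`‖q_{S_{i+1}}(x) - q_{S_i}(x)‖ ≤ C₁² C₂`. -/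
def S_EXT5K : Prop := ∀ {b k N : ℕ} {G : Type u} {M : Type v} [Group G] [MulAction G M]
  [TopologicalSpace M] [T2Space M] [ChartedSpace (Fin (b + k) → ℂ) M]
  [IsManifold 𝓘(ℂ, Fin (b + k) → ℂ) ω M] {h q : M → Matrix (Fin (b + k)) (Fin (b + k)) ℂ}
  {v : M → ℝ}, DataK b k G M h v → FlatFol b k G M q v → ∀ (c : Fin N → Cn b)
  (E : Cn (b + k) → M) (Φ : Cn b → ℝ) (Hf : Cn b → Matrix (Fin k) (Fin k) ℂ),
  LMapK G v q c 5 E Φ Hf → ∃ δ C : ℝ, Ext5K c (PMapK (Bd c 5) (RelK (G := G) c 5 E)) δ C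

/-- Extension of germs to whole balls. -/
def BigExtK {b k N : ℕ} (c : Fin N → Cn b) (R : ℝ) (P : Set (Cn b) → TriK b k → Prop)
    (C : ℝ) : Prop :=
  1 ≤ C ∧ 8 + 8 * C ≤ R ∧
  (∀ i, ∀ z ∈ ball (c i) 2, ∀ U t, P U t → z ∈ U → t.g z ∈ Bd c 2 →
    ∃ t' U', P (ball (c i) 4) t' ∧ IsOpen U' ∧ z ∈ U' ∧ U' ⊆ U ∧ t'.EqOn t U') ∧
  (∀ i t, BigK c P i t → ∀ x ∈ ball (c i) 4, ∀ y ∈ ball (c i) 4,
    ‖t.g x - t.g y‖ ≤ C * ‖x - y‖) ∧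
  (∀ i t, BigK c P i t → ∀ x ∈ ball (c i) 4, MB (t.A x) C ∧ MB (t.A x)⁻¹ C) ∧
  ∀ i t, BigK c P i t → ∀ x ∈ ball (c i) 4, ∀ y ∈ ball (c i) 4, ‖t.β x‖ ≤ C * (1 + ‖t.β y‖)

/-- RESCK. Passage to small balls. USES: PARBK, PMB, PAXK, WCH.
PROOF. As `S_RESC` (`Helper10/SP/GoalsC.lean`, proved in `Helper53/SP/RESC.lean`, `RescA.lean`). The leaf metric:
`Hf' z := Hf (p_j + ρ (z - c' j))` (only the base is rescaled). -/
def S_RESCK : Prop := ∀ {b k N : ℕ} {G : Type u} {M : Type v} [Group G] [MulAction G M]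
  [TopologicalSpace M] [T2Space M] [ChartedSpace (Fin (b + k) → ℂ) M]
  [IsManifold 𝓘(ℂ, Fin (b + k) → ℂ) ω M] {h q : M → Matrix (Fin (b + k)) (Fin (b + k)) ℂ}
  {v : M → ℝ}, 0 < b → DataK b k G M h v → FlatFol b k G M q v → ∀ (c : Fin N → Cn b)
  (E : Cn (b + k) → M) (Φ : Cn b → ℝ) (Hf : Cn b → Matrix (Fin k) (Fin k) ℂ),
  LMapK G v q c 5 E Φ Hf → ∀ δ C : ℝ, Ext5K c (PMapK (Bd c 5) (RelK (G := G) c 5 E)) δ C →
  ∃ (N' : ℕ) (c' : Fin N' → Cn b) (R' C' : ℝ) (E' : Cn (b + k) → M) (Φ' : Cn b → ℝ)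
    (Hf' : Cn b → Matrix (Fin k) (Fin k) ℂ),
    LMapK G v q c' R' E' Φ' Hf' ∧ BigExtK c' R' (PMapK (Bd c' R') (RelK (G := G) c' R' E')) C'

/-- AFOLK. Assembly of the structure. USES: PARBK, PMB, LOCPK, PAXK, FIN1K, KETG.
PROOF. As `S_AFOL` (`Helper37/SP/AFOL.lean`). `ket`, and the fields `posDef`, `smooth`, `closed` of `KahP`, from `KETG` for
`T = tubeK k (Bd c 2)` and `T = tubeK k (Bd c R)` (compact set: `base` in the union of the closed unit balls,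
`‖fib‖ ≤ 1`); `KahP.inv`: for a map `t` of the pseudogroup with group element `γ`, `E ∘ t.map = γ • E` on `tubeK k U`
(`PMB`). `AFolK.herm`, `pot`: `PAXK`. -/
def S_AFOLK : Prop := ∀ {b k N : ℕ} {G : Type u} {M : Type v} [Group G] [MulAction G M]
  [TopologicalSpace M] [T2Space M] [ConnectedSpace M] [ChartedSpace (Fin (b + k) → ℂ) M]
  [IsManifold 𝓘(ℂ, Fin (b + k) → ℂ) ω M] {h q : M → Matrix (Fin (b + k)) (Fin (b + k)) ℂ}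
  {v : M → ℝ}, 0 < b → DataK b k G M h v → FlatFol b k G M q v → ∀ (c : Fin N → Cn b)
  (R C : ℝ) (E : Cn (b + k) → M) (Φ : Cn b → ℝ) (Hf : Cn b → Matrix (Fin k) (Fin k) ℂ),
  LMapK G v q c R E Φ Hf → BigExtK c R (PMapK (Bd c R) (RelK (G := G) c R E)) C →
  FEtK c R (RelT (G := G) (tubeK k (Bd c 2)) E)
    (PMapK (Bd c R) (RelT (G := G) (tubeK k (Bd c R)) E)) Φ Hf C (pm (b + k) h E)

end Pool.Agent.Helper95.RK
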