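import Pool.Agent.Helper95.RK.DefsK
import Pool.Agent.Helper10.SP.GoalsC

/-! # Goals B: the affine structure of the leaves is holomorphic (Section C' of the paper) -/

open Complex Metric Set Filter Topology MeasureTheory
open scoped ContDiff ComplexConjugate ComplexOrder Manifold Matrix

namespace Pool.Agent.Helper95.RK

open Pool.Agent.Helper95.Lin Pool.Agent.Helper16.Abund Pool.Agent.Helper92.Orb Pool.Agent.Helper10.SP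

universe u v

/-! ## Parametrizations -/

/-- PARBK. Basics on local parametrizations and the action. As `S_PARB` (`Helper10/SP/GoalsC.lean`, proved
in `Helper4/SP/PARB.lean`) with `b + 1` replaced by `b + k`. PROOF. Copy that proof. -/
def S_PARBK : Prop := ∀ {b k : ℕ} {G : Type u} {M : Type v} [Group G] [MulAction G M]
  [TopologicalSpace M] [T2Space M] [ChartedSpace (Fin (b + k) → ℂ) M]
  [IsManifold 𝓘(ℂ, Fin (b + k) → ℂ) ω M] {h : M → Matrix (Fin (b + k)) (Fin (b + k)) ℂ}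
  {v : M → ℝ}, DataK b k G M h v →
  (∀ (V V' : Set (Cn (b + k))) (ψ : Cn (b + k) → M) (φ : Cn (b + k) → Cn (b + k)),
    Par (b + k) ψ V → IsOpen V' → DifferentiableOn ℂ φ V' → MapsTo φ V' V →
    (∀ x ∈ V', (fderiv ℂ φ x).det ≠ 0) → Par (b + k) (ψ ∘ φ) V' ∧ ∀ x ∈ V',
      jac (b + k) (ψ ∘ φ) x = jac (b + k) ψ (φ x) * (fderiv ℂ φ x).det ∧
      lpot (b + k) v (ψ ∘ φ) x = lpot (b + k) v ψ (φ x) +
        Real.log (‖(fderiv ℂ φ x).det‖ ^ 2)) ∧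
  (∀ (γ : G) (V : Set (Cn (b + k))) (ψ : Cn (b + k) → M), Par (b + k) ψ V →
    Par (b + k) (fun x => γ • ψ x) V ∧ ∀ x ∈ V,
      lpot (b + k) v (fun x => γ • ψ x) x = lpot (b + k) v ψ x) ∧
  (∀ (V V' : Set (Cn (b + k))) (ψ ψ' : Cn (b + k) → M), Par (b + k) ψ V → Par (b + k) ψ' V' →
    ∀ (γ : G), ∀ x ∈ V, ∀ x' ∈ V', γ • ψ x = ψ' x' →
    ∃ (τ : Cn (b + k) → Cn (b + k)) (U W : Set (Cn (b + k))), IsOpen U ∧ IsOpen W ∧ x ∈ U ∧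
      x' ∈ W ∧ U ⊆ V ∧ W ⊆ V' ∧ DifferentiableOn ℂ τ U ∧ InjOn τ U ∧ MapsTo τ U W ∧ τ x = x' ∧
      (∀ y ∈ U, (fderiv ℂ τ y).det ≠ 0) ∧ ∀ y ∈ U, ∀ y' ∈ W, γ • ψ y = ψ' y' ↔ y' = τ y) ∧
  (∀ (V : Set (Cn (b + k))) (ψ : Cn (b + k) → M), Par (b + k) ψ V → ∀ U ⊆ V, IsOpen U →
    IsOpen (ψ '' U)) ∧
  ∀ γ : G, Continuous (fun x : M => γ • x)

/-- PMB. The pull back matrix of an invariant Hermitian metric.
PROOF. Smoothness: `herm (q (ψ x)) u v` with `u = dvec ψ x e_i`, `v = dvec ψ x e_j`: its imaginary part is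
`metricForm q ψ x e_i e_j`, smooth by `HermMetric`; its real part is the imaginary part of
`herm (q (ψ x)) (I u) v = metricForm q ψ x (I • e_i) e_j` (`dvec` is complex linear in the vector).
Positivity: `dvec ψ x` is injective (`jac ≠ 0`). Formula: sesquilinearity of `herm` and `dvec`. (2): chain rule
`dvec (ψ ∘ φ) x u = dvec ψ (φ x) (fderiv ℂ φ x u)` (`mfderiv_comp`, `mfderiv_eq_fderiv`). (3): `InvMetric`, chain
rule. See `Helper3/SP/KET.lean` for the same facts. -/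
def S_PMB : Prop := ∀ {b k : ℕ} {G : Type u} {M : Type v} [Group G] [MulAction G M]
  [TopologicalSpace M] [T2Space M] [ChartedSpace (Fin (b + k) → ℂ) M]
  [IsManifold 𝓘(ℂ, Fin (b + k) → ℂ) ω M] {h : M → Matrix (Fin (b + k)) (Fin (b + k)) ℂ}
  {v : M → ℝ}, DataK b k G M h v → ∀ q : M → Matrix (Fin (b + k)) (Fin (b + k)) ℂ,
  HermMetric (b + k) M q → (∀ γ : G, InvMetric (b + k) q (fun y : M => γ • y)) →
  (∀ (V : Set (Cn (b + k))) (ψ : Cn (b + k) → M), Par (b + k) ψ V →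
    (∀ i j, ContDiffOn ℝ ∞ (fun x => pm (b + k) q ψ x i j) V) ∧
    (∀ x ∈ V, (pm (b + k) q ψ x).PosDef) ∧
    (∀ x ∈ V, ∀ u w : Cn (b + k), hermi (pm (b + k) q ψ x) u w =
      herm (q (ψ x)) (dvec (b + k) ψ x u) (dvec (b + k) ψ x w)) ∧
    ∀ (γ : G), ∀ x ∈ V, pm (b + k) q (fun y => γ • ψ y) x = pm (b + k) q ψ x) ∧
  ∀ (V V' : Set (Cn (b + k))) (ψ : Cn (b + k) → M) (φ : Cn (b + k) → Cn (b + k)),
    Par (b + k) ψ V → IsOpen V' → DifferentiableOn ℂ φ V' → MapsTo φ V' V →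
    (∀ x ∈ V', (fderiv ℂ φ x).det ≠ 0) → ∀ x ∈ V', ∀ u w : Cn (b + k),
      hermi (pm (b + k) q (ψ ∘ φ) x) u w =
        hermi (pm (b + k) q ψ (φ x)) (fderiv ℂ φ x u) (fderiv ℂ φ x w)

/-- KETG. The étale relation of a parametrization with cocompact image. USES: PARBK, PMB.
PROOF. As `S_KET` (`Helper10/SP/GoalsC.lean`, proved in `Helper3/SP/KET.lean`): `isOpen` from `Par`; `loc`:
`PARBK` (3); `closed`: continuity of `E` on `T` and of the action, `T2`; `fin`: `E '' C` is compact,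
`DataK.proper`; `coc`: the hypothesis; `conn`: for invariant open `S`, `T \ S` the open sets
`⋃ γ, γ • E '' S` and `⋃ γ, γ • E '' (T \ S)` cover `M` and are disjoint, `M` is connected, and `T` is nonempty.
The metric: `h` is Kähler, so it is a `HermMetric`; `closed` (the identity for `cd`) from the closedness of
the imaginary part as in `Helper3/SP/KET.lean`. -/
def S_KETG : Prop := ∀ {b k : ℕ} {G : Type u} {M : Type v} [Group G] [MulAction G M]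
  [TopologicalSpace M] [T2Space M] [ConnectedSpace M] [ChartedSpace (Fin (b + k) → ℂ) M]
  [IsManifold 𝓘(ℂ, Fin (b + k) → ℂ) ω M] {h : M → Matrix (Fin (b + k)) (Fin (b + k)) ℂ}
  {v : M → ℝ}, DataK b k G M h v → ∀ (T : Set (Cn (b + k))) (E : Cn (b + k) → M),
  Par (b + k) E T → (∃ C ⊆ T, IsCompact C ∧ ∀ p : M, ∃ (γ : G), ∃ x ∈ C, γ • p = E x) →
  KEt T (RelT (G := G) T E) (pm (b + k) h E)

/-- FINF. Finitely many foliation charts. USES: PARBK.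
PROOF. `FlatFol.chart` at `p` gives `r`, `ψ`; `ψ' x := ψ ((r/6) • x)` is `FolPar` on `(ball 0 6) × (ball 0 6)`
(`PARBK` (1): `lpot` changes by a constant; `lev` of `Φ ∘ (c •)` is `c² lev`). The set
`ψ' (prodK (ball 0 1) (ball 0 1))` is open and contains `p`. Finitely many (`N > 0`) of their translates cover the
compact set of `OrbAction.cocompact`, so the translates cover `M`. `c i := 100 i e₀` (`b > 0`),
`E x := ψ'_i (x - (c i, 0))` for `base x ∈ ball (c i) 6`. See `Helper83/SP/FINSP.lean`, `Helper27/SP/LMAP.lean`. -/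
def S_FINF : Prop := ∀ {b k : ℕ} {G : Type u} {M : Type v} [Group G] [MulAction G M]
  [TopologicalSpace M] [T2Space M] [Nonempty M] [ChartedSpace (Fin (b + k) → ℂ) M]
  [IsManifold 𝓘(ℂ, Fin (b + k) → ℂ) ω M] {h q : M → Matrix (Fin (b + k)) (Fin (b + k)) ℂ}
  {v : M → ℝ}, 0 < b → DataK b k G M h v → FlatFol b k G M q v →
  ∃ (N : ℕ) (c : Fin N → Cn b) (E : Cn (b + k) → M), 0 < N ∧
    (∀ i j, i ≠ j → 60 ≤ ‖c i - c j‖) ∧ FolPar v (Bd c 6) (ball (0 : Cn k) 6) E ∧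
    ∀ p : M, ∃ (γ : G), ∃ x ∈ prodK (Bd c 1) (ball (0 : Cn k) 1), γ • p = E x

/-! ## Local computations -/

/-- The local situation: `Φ` has Levi form `≥ 0` with kernel the fibre directions, `Q` is a Hermitian metric
whose fibre block is leafwise Kähler and flat with volume compatible with `Φ`. -/
structure AdQ {b k : ℕ} (W : Set (Cn (b + k))) (Q : Cn (b + k) → Matrix (Fin (b + k)) (Fin (b + k)) ℂ)
    (Φ : Cn (b + k) → ℝ) : Prop where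
  isOpen : IsOpen W
  smQ : ∀ i j, ContDiffOn ℝ ∞ (fun x => Q x i j) W
  posQ : ∀ x ∈ W, (Q x).PosDef
  smP : ContDiffOn ℝ ∞ Φ W
  nonneg : ∀ x ∈ W, ∀ e, 0 ≤ lev Φ x e
  ker : ∀ x ∈ W, ∀ e, lev Φ x e = 0 ↔ base e = 0
  flat : FlatG W (fun x => fbl (Q x)) Φ

/-- The fibre block. -/
noncomputable def gq {b k : ℕ} (Q : Cn (b + k) → Matrix (Fin (b + k)) (Fin (b + k)) ℂ)
    (x : Cn (b + k)) : Matrix (Fin k) (Fin k) ℂ := fbl (Q x)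

/-- The coefficients of the `Q`-orthogonal lift `V_a = e_a - ∑ ψ_a^i e_i`. -/
noncomputable def psq {b k : ℕ} (Q : Cn (b + k) → Matrix (Fin (b + k)) (Fin (b + k)) ℂ) (a : Fin b)
    (i : Fin k) (x : Cn (b + k)) : ℂ :=
  ∑ l, Q x (Fin.castAdd k a) (Fin.natAdd b l) * (gq Q x)⁻¹ l i

/-- The derivation along `conj V_a` (times `2`). -/
noncomputable def Vb {b k : ℕ} (Q : Cn (b + k) → Matrix (Fin (b + k)) (Fin (b + k)) ℂ) (a : Fin b)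
    (f : Cn (b + k) → ℂ) (x : Cn (b + k)) : ℂ :=
  cdb (Fin.castAdd k a) f x - ∑ i, conj (psq Q a i x) * cdb (Fin.natAdd b i) f x

/-- The matrix `K_a`. -/
noncomputable def KKq {b k : ℕ} (Q : Cn (b + k) → Matrix (Fin (b + k)) (Fin (b + k)) ℂ) (a : Fin b)
    (x : Cn (b + k)) : Matrix (Fin k) (Fin k) ℂ :=
  Matrix.of fun j l => Vb Q a (fun y => gq Q y j l) x -
    ∑ m, gq Q x j m * cdb (Fin.natAdd b l) (fun y => conj (psq Q a m y)) x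

/-- The matrix `A_{a;ij}`. -/
noncomputable def AAq {b k : ℕ} (Q : Cn (b + k) → Matrix (Fin (b + k)) (Fin (b + k)) ℂ) (a : Fin b)
    (x : Cn (b + k)) : Matrix (Fin k) (Fin k) ℂ :=
  Matrix.of fun i j => ∑ m, gq Q x j m * cd (Fin.natAdd b i) (fun y => conj (psq Q a m y)) x

/-- The matrix `B_{a,i} = ∂̄_a Γ_i`. -/
noncomputable def BBq {b k : ℕ} (Q : Cn (b + k) → Matrix (Fin (b + k)) (Fin (b + k)) ℂ) (a : Fin b)
    (i : Fin k) (x : Cn (b + k)) : Matrix (Fin k) (Fin k) ℂ :=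
  Matrix.of fun j l => cdb (Fin.castAdd k a) (fun y => chrM (gq Q) i y j l) x

/-- The base block of the Levi matrix. -/
noncomputable def Thq {b k : ℕ} (Φ : Cn (b + k) → ℝ) (x : Cn (b + k)) : Matrix (Fin b) (Fin b) ℂ :=
  (LM Φ x).submatrix (Fin.castAdd k) (Fin.castAdd k)

/-- The density. -/
noncomputable def muq {b k : ℕ} (Q : Cn (b + k) → Matrix (Fin (b + k)) (Fin (b + k)) ℂ)
    (Φ : Cn (b + k) → ℝ) (x : Cn (b + k)) : ℂ := (Thq Φ x).det * (gq Q x).det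

/-- The field `(0, Y)`. -/
noncomputable def Y1q {b k : ℕ} (Q : Cn (b + k) → Matrix (Fin (b + k)) (Fin (b + k)) ℂ)
    (Φ : Cn (b + k) → ℝ) (x : Cn (b + k)) : Cn (b + k) :=
  ptK 0 fun i => muq Q Φ x * ∑ a, ∑ c, ∑ p, (Thq Φ x)⁻¹ a c * (gq Q x)⁻¹ p i *
    Matrix.trace (KKq Q a x * (BBq Q c p x)ᴴ * (gq Q x)⁻¹)

/-- The field `(0, conj Y')`. -/
noncomputable def Y2q {b k : ℕ} (Q : Cn (b + k) → Matrix (Fin (b + k)) (Fin (b + k)) ℂ)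
    (Φ : Cn (b + k) → ℝ) (x : Cn (b + k)) : Cn (b + k) :=
  ptK 0 fun l => conj (muq Q Φ x * ∑ a, ∑ c, ∑ p, ∑ i, ∑ m, (Thq Φ x)⁻¹ a c * (gq Q x)⁻¹ p i *
    (BBq Q c p x)ᴴ l m * cd (Fin.natAdd b i) (fun y => conj (psq Q a m y)) x)

/-- The square of the norm of `B`. -/
noncomputable def NBq {b k : ℕ} (Q : Cn (b + k) → Matrix (Fin (b + k)) (Fin (b + k)) ℂ)
    (Φ : Cn (b + k) → ℝ) (x : Cn (b + k)) : ℂ :=
  ∑ a, ∑ c, ∑ i, ∑ p, (Thq Φ x)⁻¹ a c * (gq Q x)⁻¹ p i *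
    Matrix.trace (BBq Q a i x * gq Q x * (BBq Q c p x)ᴴ * (gq Q x)⁻¹)

/-- SMQ. Smoothness and first consequences. USES: WIRT, LMF.
PROOF. (1) The block of a positive definite matrix is positive definite; the inverse is smooth (adjugate and
determinant). `Thq`: positive definite since `hermi (Thq Φ x) e e = lev Φ x (e,0) > 0` for `e ≠ 0` (`LMF`, `ker`).
(2) `LM Φ x j l = 0` if `j` or `l` is a fibre index: a semidefinite form vanishes in pairs with its kernel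
(Cauchy-Schwarz). So `cd (natAdd i) (Thq Φ) = 0`: `LMF` closedness: `cd_i (LM Φ a c) = cd_a (LM Φ i c) = 0`, and the
same for `cdb`. (3) `cdb_l (Γ_i) = 0` (flat); `(Γ_i) j m = (Γ_j) i m`: `Γ_i = (∂_i g) g⁻¹` and `kah`. (4)
`tr Γ_i = cd_i log det g = cd_i Φ` (Jacobi's formula `cd_i det g = det g tr (g⁻¹ cd_i g)`, `det g` real positive), so
`tr (BBq a i) = cdb_a cd_i Φ = LM Φ x (natAdd i) (castAdd a) = 0`. (5) `cdb_l (BBq a i) = cdb_a cdb_l Γ_i = 0`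
(commuting derivatives, `Γ_i` smooth). -/
def S_SMQ : Prop := ∀ {b k : ℕ} (W : Set (Cn (b + k)))
  (Q : Cn (b + k) → Matrix (Fin (b + k)) (Fin (b + k)) ℂ) (Φ : Cn (b + k) → ℝ), AdQ W Q Φ →
  ((∀ x ∈ W, (gq Q x).PosDef ∧ (gq Q x)⁻¹.PosDef ∧ (Thq Φ x).PosDef ∧ (Thq Φ x)⁻¹.PosDef) ∧
    (∀ i j, ContDiffOn ℝ ∞ (fun x => gq Q x i j) W ∧ ContDiffOn ℝ ∞ (fun x => (gq Q x)⁻¹ i j) W) ∧
    (∀ a c, ContDiffOn ℝ ∞ (fun x => Thq Φ x a c) W ∧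
      ContDiffOn ℝ ∞ (fun x => (Thq Φ x)⁻¹ a c) W) ∧
    (∀ a i, ContDiffOn ℝ ∞ (psq Q a i) W) ∧
    (∀ i j l, ContDiffOn ℝ ∞ (fun x => chrM (gq Q) i x j l) W) ∧
    (∀ a j l, ContDiffOn ℝ ∞ (fun x => KKq Q a x j l) W) ∧
    (∀ a i j, ContDiffOn ℝ ∞ (fun x => AAq Q a x i j) W) ∧
    ∀ a i j l, ContDiffOn ℝ ∞ (fun x => BBq Q a i x j l) W) ∧
  ∀ x ∈ W, (∀ (i : Fin k) (j : Fin (b + k)), LM Φ x (Fin.natAdd b i) j = 0 ∧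
      LM Φ x j (Fin.natAdd b i) = 0) ∧
    (∀ (i : Fin k) (a c : Fin b), cd (Fin.natAdd b i) (fun y => Thq Φ y a c) x = 0 ∧
      cdb (Fin.natAdd b i) (fun y => Thq Φ y a c) x = 0) ∧
    (∀ i j l : Fin k, cd (Fin.natAdd b i) (fun y => gq Q y j l) x = (chrM (gq Q) i x * gq Q x) j l) ∧
    (∀ i j l m : Fin k, cdb (Fin.natAdd b l) (fun y => chrM (gq Q) i y j m) x = 0 ∧
      chrM (gq Q) i x j m = chrM (gq Q) j x i m) ∧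
    (∀ (a : Fin b) (i : Fin k), Matrix.trace (BBq Q a i x) = 0) ∧
    ∀ (a : Fin b) (i j l m : Fin k), cdb (Fin.natAdd b l) (fun y => BBq Q a i y j m) x = 0 ∧
      BBq Q a i x j m = BBq Q a j x i m

/-- STRB. The structure equation. USES: WIRT, SMQ.
PROOF. Paper C'1. For smooth `f`: `cd_i (Vb_a f) = Vb_a (cd_i f) - ∑ m, (cd_i (conj ψ_a^m)) cdb_m f` (product rule,
commuting derivatives). `cd_i g = Γ_i g`, `Vb_a (Γ_i g) = B_{a,i} g + Γ_i Vb_a g` (`Vb_a Γ_i = cdb_a Γ_i = B`, as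
`cdb_m Γ_i = 0`). So `cd_i K_jl = (B_i g)_jl + (Γ_i Vb g)_jl - ∑ m, (cd_i conj ψ^m) cdb_m g_jl -
∑ m, (Γ_i g)_jm cdb_l conj ψ^m - ∑ m, g_jm cd_i cdb_l conj ψ^m`; subtract `(Γ_i K)_jl = (Γ_i Vb g)_jl -
∑ m, (Γ_i g)_jm cdb_l conj ψ^m`, add `cdb_l A_ij = ∑ m, (cdb_l g_jm) cd_i conj ψ^m + ∑ m, g_jm cdb_l cd_i conj ψ^m`. The
remaining terms `∑ m, (cd_i conj ψ^m) (cdb_l g_jm - cdb_m g_jl)` vanish: conjugate of `kah` (`g` Hermitian). -/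
def S_STRB : Prop := ∀ {b k : ℕ} (W : Set (Cn (b + k)))
  (Q : Cn (b + k) → Matrix (Fin (b + k)) (Fin (b + k)) ℂ) (Φ : Cn (b + k) → ℝ), AdQ W Q Φ →
  ∀ x ∈ W, ∀ (a : Fin b) (i j l : Fin k), (BBq Q a i x * gq Q x) j l =
    cd (Fin.natAdd b i) (fun y => KKq Q a y j l) x - (chrM (gq Q) i x * KKq Q a x) j l +
      cdb (Fin.natAdd b l) (fun y => AAq Q a y i j) x

/-- COVB. The divergence of `B` vanishes. USES: WIRT, SMQ.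
PROOF. Paper C'2. (a) `cd_l Γ_i = (cd_l cd_i g) g⁻¹ - Γ_i Γ_l`, so `cd_l Γ_i - cd_i Γ_l = Γ_l Γ_i - Γ_i Γ_l`. Apply
`cdb_a`: `cd_l B_i - cd_i B_l = B_l Γ_i + Γ_l B_i - B_i Γ_l - Γ_i B_l`. (b) With `D l p := cd_l B_p - Γ_l B_p + B_p Γ_l -
∑ m, (Γ_l)_pm B_m` (matrix): `D l p = D p l` (use `(Γ_l)_pm = (Γ_p)_lm`); entries: `(D l p)_qm = (D l q)_pm`
(`(B_p)_qm = (B_q)_pm`; check each term: `(Γ_l B_p)_qm + ∑ n, (Γ_l)_pn (B_n)_qm` is symmetric in `p, q`). So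
`∑ l, (D l p)_ql = ∑ l, (D p l)_ql = ∑ l, (D p q)_ll = tr (D p q) = cd_p (tr B_q) - tr (Γ_p B_q) + tr (B_q Γ_p) -
∑ m, (Γ_p)_qm tr B_m = 0` by `SMQ`. -/
def S_COVB : Prop := ∀ {b k : ℕ} (W : Set (Cn (b + k)))
  (Q : Cn (b + k) → Matrix (Fin (b + k)) (Fin (b + k)) ℂ) (Φ : Cn (b + k) → ℝ), AdQ W Q Φ →
  ∀ x ∈ W, ∀ (a : Fin b) (p q : Fin k),
    ∑ l, (cd (Fin.natAdd b l) (fun y => BBq Q a p y q l) x - (chrM (gq Q) l x * BBq Q a p x) q l +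
      (BBq Q a p x * chrM (gq Q) l x) q l - ∑ m, chrM (gq Q) l x p m * BBq Q a m x q l) = 0

/-- DIVB. The divergence identity. USES: WIRT, SMQ, STRB, COVB.
PROOF. Paper C'3. Only fibre components of the fields are not zero; `Thq` and its inverse and determinant are
annihilated by `cd_i`, `cdb_i` for fibre `i`. (i) `∑ i, cd_i (det g (g⁻¹) p i) = 0` (`cd_i det g = det g tr Γ_i`,
`cd_i g⁻¹ = - g⁻¹ Γ_i`, `∑ i, (g⁻¹ Γ_i)_pi = ∑ i q, (g⁻¹)_pq (Γ_i)_qi = ∑ q, (g⁻¹)_pq tr Γ_q` by symmetry of `Γ`).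
(ii) `cd_i (B^*) = (cdb_i B)^* = 0`. So `∑ cd_i Y^i = μ ∑ Θ⁻¹_ac (g⁻¹)_pi tr ((cd_i K_a - Γ_i K_a) B_{c,p}^* g⁻¹)`.
(iii) `Y'^l = ∑ a i j, A_{a;ij} X_a^{l;ij}`, `X_a^{l;ij} = μ ∑ c p, Θ⁻¹_ac (g⁻¹)_pi (B_{c,p}^* g⁻¹)_lj` (as
`∑ j, (B^* g⁻¹)_lj g_jm = (B^*)_lm`), and `∑ l, cdb_l X_a^{l;ij} = 0`: the conjugate is `∑ l, cd_l` of
`μ ∑ conj(Θ⁻¹_ac) (g⁻¹)_ip (g⁻¹)_jq (B_{c,p})_ql` (`g⁻¹` Hermitian, `μ` real), which equals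
`μ ∑ conj(Θ⁻¹) (g⁻¹)_ip (g⁻¹)_jq Z_pq` with `Z_pq = ∑ l, [tr Γ_l (B_p)_ql - ∑ m, (Γ_l)_pm... ]`; careful with
positions: `cd_l (g⁻¹)_ip = - ∑ n, (g⁻¹)_in (Γ_l)_np`, so after renaming
`Z_pq = ∑ l, [tr Γ_l (B_p)_ql - ∑ m, (Γ_l)_pm (B_m)_ql - ∑ m, (Γ_l)_qm (B_p)_ml + cd_l (B_p)_ql]`, and
`∑ l, (B_p Γ_l)_ql = ∑ l m, (B_p)_qm (Γ_l)_ml = ∑ m, (B_p)_qm tr Γ_m`, so `Z_pq` is the sum in `COVB`: zero.
Sum: `μ ∑ Θ⁻¹_ac (g⁻¹)_pi ∑ j l, (cd_i K_a - Γ_i K_a + cdb_l A_{a;ij})_jl (B_{c,p}^* g⁻¹)_lj = μ NB` by `STRB`. -/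
def S_DIVB : Prop := ∀ {b k : ℕ} (W : Set (Cn (b + k)))
  (Q : Cn (b + k) → Matrix (Fin (b + k)) (Fin (b + k)) ℂ) (Φ : Cn (b + k) → ℝ), AdQ W Q Φ →
  ContDiffOn ℝ ∞ (Y1q Q Φ) W ∧ ContDiffOn ℝ ∞ (Y2q Q Φ) W ∧
  ∀ x ∈ W, ∑ l, cd l (fun y => Y1q Q Φ y l) x + conj (∑ l, cd l (fun y => Y2q Q Φ y l) x) =
    muq Q Φ x * NBq Q Φ x

/-- POSB. Positivity. USES: SMQ.
PROOF. `Θ⁻¹ = P Pᴴ`, `g⁻¹ = R Rᴴ`, `g = (R⁻¹)ᴴ R⁻¹`: with `C_{e,s} := ∑ a i, P a e * conj (R i s) * Rᴴ... `: write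
`NB = ∑ e s, tr (Z_{es} Z_{es}ᴴ)`, `Z_{es} := ∑ a i, P a e * conj (R i s) • (Rᴴ B_{a,i} (R⁻¹)ᴴ)` (check: `Θ⁻¹ a c = ∑ e, P a e
conj (P c e)`, `(g⁻¹) p i = ∑ s, R p s conj (R i s)`, `tr (B g Bᴴ g⁻¹) = tr (Rᴴ B (R⁻¹)ᴴ R⁻¹ Bᴴ R)`). So it is a sum
of squares, and if it vanishes all `Z_{es} = 0`, and `P`, `R` are invertible. `μ`: determinants of positive
definite matrices. -/
def S_POSB : Prop := ∀ {b k : ℕ} (W : Set (Cn (b + k)))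
  (Q : Cn (b + k) → Matrix (Fin (b + k)) (Fin (b + k)) ℂ) (Φ : Cn (b + k) → ℝ), AdQ W Q Φ →
  ∀ x ∈ W, (muq Q Φ x).im = 0 ∧ 0 < (muq Q Φ x).re ∧ (NBq Q Φ x).im = 0 ∧ 0 ≤ (NBq Q Φ x).re ∧
    (NBq Q Φ x = 0 → ∀ a i, BBq Q a i x = 0)

/-! ## Naturality -/

/-- `τ` is a local isomorphism of the situation `(Q', Φ')` on `W'` with `(Q, Φ)` on `W`. -/
structure MorQ {b k : ℕ} (W' W : Set (Cn (b + k)))
    (Q' Q : Cn (b + k) → Matrix (Fin (b + k)) (Fin (b + k)) ℂ) (Φ' Φ : Cn (b + k) → ℝ)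
    (τ : Cn (b + k) → Cn (b + k)) : Prop where
  src : AdQ W' Q' Φ'
  tgt : AdQ W Q Φ
  holo : DifferentiableOn ℂ τ W'
  maps : MapsTo τ W' W
  det : ∀ x ∈ W', (fderiv ℂ τ x).det ≠ 0
  met : ∀ x ∈ W', ∀ u w : Cn (b + k),
    hermi (Q (τ x)) (fderiv ℂ τ x u) (fderiv ℂ τ x w) = hermi (Q' x) u w
  pot : ∀ x ∈ W', Φ' x = Φ (τ x) + Real.log (‖(fderiv ℂ τ x).det‖ ^ 2)

/-- The fibre block `J_ip = ∂_i τ^p` of the differential. -/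
noncomputable def Jfq {b k : ℕ} (τ : Cn (b + k) → Cn (b + k)) (x : Cn (b + k)) :
    Matrix (Fin k) (Fin k) ℂ := Matrix.of fun i p => fderiv ℂ τ x (ef b i) (Fin.natAdd b p)

/-- The base block `G_ac = ∂_a τ^c` of the differential. -/
noncomputable def Gbq {b k : ℕ} (τ : Cn (b + k) → Cn (b + k)) (x : Cn (b + k)) :
    Matrix (Fin b) (Fin b) ℂ :=
  Matrix.of fun a c => fderiv ℂ τ x (Pi.single (Fin.castAdd k a) 1) (Fin.castAdd k c)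

/-- NATA. First order naturality. USES: WIRT, WCH, LMF, SMQ.
PROOF. `lev Φ' x e = lev Φ (τ x) (Dτ e)` (`WCH`; `log |det Dτ|²` is pluriharmonic: `det Dτ` is holomorphic and
nonzero), so `base e = 0 ↔ base (Dτ e) = 0` (`ker`): the first item. `Dτ` is block triangular: determinant.
`met` for `u, w` fibre vectors: `gq Q' x = J (gq Q (τ x)) Jᴴ`. `LM Φ' = Dτᵗ LM Φ conj(Dτ)` (`WCH`) restricted to the base block
(fibre rows and columns of `LM Φ` vanish, `SMQ`). `muq`. Derivatives: `WCH` for `f ∘ τ`; the base components of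
`Dτ (ef i)` vanish. `cd_i G_ac`: the function `x' ↦ fderiv τ x' e_a (castAdd c)` is holomorphic, its derivative in the
direction `ef i` is the derivative of `fderiv τ x' (ef i) (castAdd c) = 0` in the direction `e_a` (symmetry). -/
def S_NATA : Prop := ∀ {b k : ℕ} (W' W : Set (Cn (b + k)))
  (Q' Q : Cn (b + k) → Matrix (Fin (b + k)) (Fin (b + k)) ℂ) (Φ' Φ : Cn (b + k) → ℝ)
  (τ : Cn (b + k) → Cn (b + k)), MorQ W' W Q' Q Φ' Φ τ →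
  (∀ i p, DifferentiableOn ℂ (fun x => Jfq τ x i p) W') ∧
  (∀ a c, DifferentiableOn ℂ (fun x => Gbq τ x a c) W') ∧
  ∀ x ∈ W', (∀ e, base (fderiv ℂ τ x e) = 0 ↔ base e = 0) ∧
    (fderiv ℂ τ x).det = (Gbq τ x).det * (Jfq τ x).det ∧
    gq Q' x = Jfq τ x * gq Q (τ x) * (Jfq τ x)ᴴ ∧
    Thq Φ' x = Gbq τ x * Thq Φ (τ x) * (Gbq τ x)ᴴ ∧
    muq Q' Φ' x = ((‖(fderiv ℂ τ x).det‖ ^ 2 : ℝ) : ℂ) * muq Q Φ (τ x) ∧
    (∀ (i : Fin k) (a c : Fin b), cd (Fin.natAdd b i) (fun y => Gbq τ y a c) x = 0) ∧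
    ∀ f : Cn (b + k) → ℂ, ContDiffOn ℝ ∞ f W →
      (∀ i : Fin k, cd (Fin.natAdd b i) (fun y => f (τ y)) x =
          ∑ p, Jfq τ x i p * cd (Fin.natAdd b p) f (τ x) ∧
        cdb (Fin.natAdd b i) (fun y => f (τ y)) x =
          ∑ p, conj (Jfq τ x i p) * cdb (Fin.natAdd b p) f (τ x)) ∧
      ∀ a : Fin b, cdb (Fin.castAdd k a) (fun y => f (τ y)) x =
        ∑ c, conj (Gbq τ x a c) * cdb (Fin.castAdd k c) f (τ x) +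
        ∑ p, conj (fderiv ℂ τ x (Pi.single (Fin.castAdd k a) 1) (Fin.natAdd b p)) *
          cdb (Fin.natAdd b p) f (τ x)

/-- NATC. Naturality of `B`. USES: WIRT, SMQ, NATA.
PROOF. `gq Q' = J (gq Q ∘ τ) Jᴴ` gives, with `cd_i (Jᴴ) = (cdb_i J)ᴴ = 0`: `Γ'_i = (cd_i J) J⁻¹ + ∑ p, J i p • J (Γ_p ∘ τ) J⁻¹`.
Apply `cdb_a`: `J` and its derivatives are holomorphic; `cdb_a (Γ_p ∘ τ) = ∑ c, conj (G a c) (cdb_c Γ_p) ∘ τ` since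
`cdb_m Γ_p = 0` for fibre `m`. -/
def S_NATC : Prop := ∀ {b k : ℕ} (W' W : Set (Cn (b + k)))
  (Q' Q : Cn (b + k) → Matrix (Fin (b + k)) (Fin (b + k)) ℂ) (Φ' Φ : Cn (b + k) → ℝ)
  (τ : Cn (b + k) → Cn (b + k)), MorQ W' W Q' Q Φ' Φ τ → ∀ x ∈ W', ∀ (a : Fin b) (i : Fin k),
  BBq Q' a i x = ∑ c, ∑ p, (conj (Gbq τ x a c) * Jfq τ x i p) •
    (Jfq τ x * BBq Q c p (τ x) * (Jfq τ x)⁻¹)

/-- NATD. Naturality of `K` and `A`. USES: WIRT, SMQ, NATA.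
PROOF. Paper C'4. `Dτ (V'_a)` (`V'_a = e_a - ∑ ψ'_a^i e_i`, `ψ' = psq Q'`) is `Q`-orthogonal to the fibre vectors
(`met`; `Dτ` maps the fibre space onto the fibre space) and has base part `∑ c, G a c e_c`, so
`Dτ (V'_a) = ∑ c, G a c V_c(τ x)`. Fibre components: `∂_a τ^p - ∑ m, ψ'_a^m J m p = - ∑ c, G a c ψ_c^p(τ x)`, i.e.
`∑ m, ψ'_a^m J m p = ∂_a τ^p + ∑ c, G a c ψ_c^p ∘ τ`. Apply `cd_l` (`cd_l` of the holomorphic function `∂_a τ^p` is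
`cd_a` of `J l p`; `cd_l (J m p) = cd_m (J l p)`; `cd_l G = 0`): `∑ m, (cd_l ψ'_a^m) J m p = V'_a (J l p) + ∑ c r, G a c J l r
(cd_r ψ_c^p) ∘ τ`, `V'_a f := cd_a f - ∑ ψ'_a^m cd_m f`. Apply `cdb_i`: `∑ m, (cdb_i ψ'_a^m) J m p = ∑ c r, G a c
conj (J i r) (cdb_r ψ_c^p) ∘ τ`. `Vb'_a (f ∘ τ) = ∑ c, conj (G a c) (Vb_c f) ∘ τ`. Now `K'_a = Vb'_a (J (g∘τ) Jᴴ) -
∑ m, g'_jm conj (cd_l ψ'_a^m)`: `Vb'_a J = 0`, `Vb'_a (Jᴴ)_rl = conj (V'_a J l r)`, and `∑ m, g'_jm conj (cd_l ψ'^m) =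
∑ p, (J g)_jp conj (∑ m, J m p cd_l ψ'^m)`; the terms with `V'_a J` cancel. Same for `A'` with
`cd_i (conj ψ') = conj (cdb_i ψ')`. -/
def S_NATD : Prop := ∀ {b k : ℕ} (W' W : Set (Cn (b + k)))
  (Q' Q : Cn (b + k) → Matrix (Fin (b + k)) (Fin (b + k)) ℂ) (Φ' Φ : Cn (b + k) → ℝ)
  (τ : Cn (b + k) → Cn (b + k)), MorQ W' W Q' Q Φ' Φ τ → ∀ x ∈ W', ∀ a : Fin b,
  KKq Q' a x = ∑ c, conj (Gbq τ x a c) • (Jfq τ x * KKq Q c (τ x) * (Jfq τ x)ᴴ) ∧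
  AAq Q' a x = ∑ c, conj (Gbq τ x a c) • (Jfq τ x * AAq Q c (τ x) * (Jfq τ x)ᵀ)

/-- NATE. Naturality of the fields. USES: SMQ, NATA, NATC, NATD.
PROOF. Linear algebra at a point. `Θ'⁻¹ = (Gᴴ)⁻¹ Θ⁻¹ G⁻¹`, `g'⁻¹ = (Jᴴ)⁻¹ g⁻¹ J⁻¹`. `tr (K'_a B'_{c,p}ᴴ g'⁻¹) = ∑ d e r, conj (G a d)
G c e conj (J p r) tr (J K_d Jᴴ (J⁻¹)ᴴ B_{e,r}ᴴ Jᴴ (Jᴴ)⁻¹ g⁻¹ J⁻¹) = ∑ d e r, conj (G a d) G c e conj (J p r)
tr (K_d B_{e,r}ᴴ g⁻¹)`; `∑ a c, Θ'⁻¹ a c conj (G a d) G c e = Θ⁻¹ d e`; `∑ p, g'⁻¹ p i conj (J p r) = ∑ s, g⁻¹ r s (J⁻¹) s i`; so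
`∑ i, Y'^i J i s = |det|² Y^s`. The vector `Dτ (0, y) = (0, Jᵀ y)`. For `Y2`: `∑ m, (Bᴴ) l m cd_i conj ψ^m =
∑ j, (Bᴴ g⁻¹) l j A_{a;ij}`, then the same with `NATD`. `NB` the same. -/
def S_NATE : Prop := ∀ {b k : ℕ} (W' W : Set (Cn (b + k)))
  (Q' Q : Cn (b + k) → Matrix (Fin (b + k)) (Fin (b + k)) ℂ) (Φ' Φ : Cn (b + k) → ℝ)
  (τ : Cn (b + k) → Cn (b + k)), MorQ W' W Q' Q Φ' Φ τ → ∀ x ∈ W',
  fderiv ℂ τ x (Y1q Q' Φ' x) = ((‖(fderiv ℂ τ x).det‖ ^ 2 : ℝ) : ℂ) • Y1q Q Φ (τ x) ∧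
  fderiv ℂ τ x (Y2q Q' Φ' x) = ((‖(fderiv ℂ τ x).det‖ ^ 2 : ℝ) : ℂ) • Y2q Q Φ (τ x) ∧
  NBq Q' Φ' x = NBq Q Φ (τ x)

/-- BZERO. The affine structure of the leaves is holomorphic. USES: PARBK, PMB, KETG, FINF, PUE, DIVC, DIVB,
POSB, NATC, NATE (`S_PUE`, `S_DIVC` of `Helper10/SP/GoalsT.lean`, proved).
PROOF. `(N, c, E)` from `FINF`, `T := prodK (Bd c 6) (ball 0 6)`, `Q := pm q E`, `Φ := lpot v E`: `AdQ T Q Φ` (`PMB`,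
`FlatFol.flat` for `U = Bd c 6`, `DataK.rank` for `0 ≤ lev`). `KETG` (`C` := the points with `base` in the union of the
closed balls of radius `1` and `‖fib‖ ≤ 1`). An arrow `τ` of `RelT T E` on `U` (`γ • E x = E (τ x)`) is a
`MorQ U T Q Q Φ Φ τ` (`PARBK`, `PMB`; `det ≠ 0` since both sides are local parametrizations; restrict `τ` to
small open sets). `κ` from `PUE`. `NATE`: `Y1q`, `Y2q` satisfy the hypothesis of `DIVC`, so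
`∫ κ ∑ cd_l Y1^l = 0 = ∫ κ ∑ cd_l Y2^l`; by `DIVB` `∫ κ μ NB = 0` (real, continuous, `≥ 0`), so `κ NB = 0` on `T`. Every
point of `T` is related to a point with `κ > 0` (`IsPUE.sum`), `NB` is invariant: `NB = 0` on `T`, `B = 0` on `T`.
For an arbitrary `FolPar` `ψ` on `U × Δ` and `x`: some `γ • ψ x = E x'` (`FINF`), the transition `τ` (`PARBK` (3)) is a
`MorQ` from `(pm q ψ, lpot ψ)`; `NATC` gives `BBq (pm q ψ) = 0` at `x`. -/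
def S_BZERO : Prop := ∀ {b k : ℕ} {G : Type u} {M : Type v} [Group G] [MulAction G M]
  [TopologicalSpace M] [T2Space M] [ConnectedSpace M] [ChartedSpace (Fin (b + k) → ℂ) M]
  [IsManifold 𝓘(ℂ, Fin (b + k) → ℂ) ω M] {h q : M → Matrix (Fin (b + k)) (Fin (b + k)) ℂ}
  {v : M → ℝ}, 0 < b → DataK b k G M h v → FlatFol b k G M q v →
  ∀ (U : Set (Cn b)) (Δ : Set (Cn k)) (ψ : Cn (b + k) → M), IsOpen U → IsOpen Δ →
  FolPar v U Δ ψ → ∀ x ∈ prodK U Δ, ∀ (a : Fin b) (i j l : Fin k),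
    cdb (Fin.castAdd k a) (fun y => chrM (gm q ψ) i y j l) x = 0

end Pool.Agent.Helper95.RK
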