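import Pool.Agent.Helper95.RK.GoalsC

/-! # Assembly of the sections C'', D' -/

open Complex Metric Set Filter Topology MeasureTheory
open scoped ContDiff ComplexConjugate ComplexOrder Manifold

namespace Pool.Agent.Helper95.RK

open Pool.Agent.Helper95.Lin Pool.Agent.Helper16.Abund Pool.Agent.Helper92.Orb Pool.Agent.Helper10.SP

universe u v

theorem geoK (hL : S_LMAPK.{u, v}) (hE : S_EXT5K.{u, v}) (hR : S_RESCK.{u, v})
    (hA : S_AFOLK.{u, v}) : S_GEOK.{u, v} := by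
  intro b k G M _ _ _ _ _ _ _ h q v hb hD hF
  obtain ⟨N, c, E, Φ, Hf, h1⟩ := hL hb hD hF
  obtain ⟨δ, C, h2⟩ := hE hD hF c E Φ Hf h1
  obtain ⟨N', c', R', C', E', Φ', Hf', h3, h4⟩ := hR hb hD hF c E Φ Hf h1 δ C h2
  exact ⟨N', c', R', E', Φ', Hf', C', h3, hA hb hD hF c' R' C' E' Φ' Hf' h3 h4⟩

end Pool.Agent.Helper95.RK
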