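import Pool.Agent.Helper10.SP.GoalsT

/-!
# Semipositive canonical bundles of constant rank: definitions for corank `k`

`M` is an `n`-dimensional manifold, `n = b + k`, the curvature has rank `b` everywhere and its kernel
carries a leafwise flat Kähler metric. The paper proof is `paper.md` in this folder. The case `k = 1` is
the theorem of `Helper10/SP`; the definitions here are its analogues with `ℂ` replaced by `ℂᵏ`.
-/

open Complex Metric Set Filter Topology MeasureTheory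
open scoped ContDiff ComplexConjugate ComplexOrder Manifold Matrix

namespace Pool.Agent.Helper95.RK

open Pool.Agent.Helper95.Lin Pool.Agent.Helper16.Abund Pool.Agent.Helper92.Orb Pool.Agent.Helper10.SP

universe u v

/-! ## The space `ℂᵇ × ℂᵏ` -/

/-- The point `(z, w)` of `ℂᵇ⁺ᵏ`. -/
noncomputable def ptK {b k : ℕ} (z : Cn b) (w : Cn k) : Cn (b + k) := Fin.append z w

/-- The product `D × ℂᵏ`. -/
def tubeK (k : ℕ) {b : ℕ} (D : Set (Cn b)) : Set (Cn (b + k)) := {x | base x ∈ D}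

/-- The product `U × Δ`. -/
def prodK {b k : ℕ} (U : Set (Cn b)) (Δ : Set (Cn k)) : Set (Cn (b + k)) :=
  {x | base x ∈ U ∧ fib x ∈ Δ}

/-- The vectors `∂/∂w_i` of `ℂᵇ⁺ᵏ`. -/
noncomputable def ef (b : ℕ) {k : ℕ} (i : Fin k) : Cn (b + k) := Pi.single (Fin.natAdd b i) 1

/-- The operator norm of the matrix `A` (for the sup norm of `ℂᵏ`) is at most `C`. -/
def MB {k : ℕ} (A : Matrix (Fin k) (Fin k) ℂ) (C : ℝ) : Prop := ∀ v : Cn k, ‖A *ᵥ v‖ ≤ C * ‖v‖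

/-- The fibre block of a matrix. -/
def fbl {b k : ℕ} (A : Matrix (Fin (b + k)) (Fin (b + k)) ℂ) : Matrix (Fin k) (Fin k) ℂ :=
  A.submatrix (Fin.natAdd b) (Fin.natAdd b)

/-! ## The data on the manifold -/

section manifold

/-- The Levi form of `Φ` is positive semidefinite on `W` and its kernel has dimension `k` at every
point. -/
def CorankK (k : ℕ) {n : ℕ} (Φ : Cn n → ℝ) (W : Set (Cn n)) : Prop :=
  ∀ z ∈ W, (∀ e, 0 ≤ lev Φ z e) ∧ ∃ S : Submodule ℂ (Cn n), Module.finrank ℂ S = k ∧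
    ∀ e, lev Φ z e = 0 ↔ e ∈ S

/-- A proper cocompact action of `G` on `M`, an invariant Kähler metric `h` and an invariant volume
density `v` whose curvature is semipositive of corank `k`. -/
structure DataK (b k : ℕ) (G : Type u) (M : Type v) [Group G] [MulAction G M] [TopologicalSpace M]
    [ChartedSpace (Fin (b + k) → ℂ) M] (h : M → Matrix (Fin (b + k)) (Fin (b + k)) ℂ)
    (v : M → ℝ) : Prop where
  act : OrbAction (b + k) G M
  proper : ∀ K : Set M, IsCompact K → {γ : G | ∃ y ∈ K, γ • y ∈ K}.Finite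
  kah : KahlerMetric (b + k) M h
  inv : ∀ γ : G, InvMetric (b + k) h (fun y : M => γ • y)
  met : CanMetric (b + k) M v
  vinv : ∀ (γ : G) (x : M), v (γ • x) * ‖jac (b + k) (fun y : M => γ • y) x‖ ^ 2 = v x
  rank : ∀ (V : Set (Cn (b + k))) (ψ : Cn (b + k) → M), Par (b + k) ψ V →
    CorankK k (lpot (b + k) v ψ) V

/-- `q` is a smooth Hermitian metric on `M` (not necessarily Kähler). -/
def HermMetric (n : ℕ) (M : Type*) [TopologicalSpace M] [ChartedSpace (Fin n → ℂ) M]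
    (q : M → Matrix (Fin n) (Fin n) ℂ) : Prop :=
  (∀ x, (q x).PosDef) ∧ ∀ (V : Set (Fin n → ℂ)) (ψ : (Fin n → ℂ) → M), HoloOn n ψ V →
    SmoothForm n (metricForm n q ψ) V

/-- The matrix of the pull back of the metric `q` by `ψ`. -/
noncomputable def pm (n : ℕ) {M : Type*} [TopologicalSpace M] [ChartedSpace (Fin n → ℂ) M]
    (q : M → Matrix (Fin n) (Fin n) ℂ) (ψ : Cn n → M) (x : Cn n) : Matrix (Fin n) (Fin n) ℂ :=
  Matrix.of fun i j => herm (q (ψ x)) (dvec n ψ x (Pi.single i 1)) (dvec n ψ x (Pi.single j 1))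

/-- `ψ` is a local parametrization on `U × Δ` in which the kernel of the curvature is spanned by the
vectors `∂/∂w_i`. -/
def FolPar {b k : ℕ} {M : Type v} [TopologicalSpace M] [ChartedSpace (Fin (b + k) → ℂ) M]
    (v : M → ℝ) (U : Set (Cn b)) (Δ : Set (Cn k)) (ψ : Cn (b + k) → M) : Prop :=
  Par (b + k) ψ (prodK U Δ) ∧ ∀ x ∈ prodK U Δ, ∀ e, lev (lpot (b + k) v ψ) x e = 0 ↔ base e = 0

/-- The matrix of the leaf metric in the parametrization `ψ`. -/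
noncomputable def gm {b k : ℕ} {M : Type v} [TopologicalSpace M]
    [ChartedSpace (Fin (b + k) → ℂ) M] (q : M → Matrix (Fin (b + k)) (Fin (b + k)) ℂ)
    (ψ : Cn (b + k) → M) (x : Cn (b + k)) : Matrix (Fin k) (Fin k) ℂ := fbl (pm (b + k) q ψ x)

end manifold

/-- The connection matrix `(∂g/∂w_i) g⁻¹` (times `2`) of a family `g` of matrices. -/
noncomputable def chrM {b k : ℕ} (g : Cn (b + k) → Matrix (Fin k) (Fin k) ℂ) (i : Fin k)
    (x : Cn (b + k)) : Matrix (Fin k) (Fin k) ℂ :=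
  (Matrix.of fun j l => cd (Fin.natAdd b i) (fun y => g y j l) x) * (g x)⁻¹

/-- The family `g` of metrics of the slices `{z} × Δ` is Kähler and flat, and the logarithm of its
determinant differs from `Φ` by a function of `z`. -/
structure FlatG {b k : ℕ} (W : Set (Cn (b + k))) (g : Cn (b + k) → Matrix (Fin k) (Fin k) ℂ)
    (Φ : Cn (b + k) → ℝ) : Prop where
  smooth : ∀ i j, ContDiffOn ℝ ∞ (fun x => g x i j) W
  posDef : ∀ x ∈ W, (g x).PosDef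
  kah : ∀ x ∈ W, ∀ i j l : Fin k, cd (Fin.natAdd b l) (fun y => g y i j) x =
    cd (Fin.natAdd b i) (fun y => g y l j) x
  flat : ∀ x ∈ W, ∀ i j l m : Fin k,
    cdb (Fin.natAdd b l) (fun y => chrM g i y j m) x = 0
  vol : ∀ x ∈ W, ∀ i : Fin k,
    cd (Fin.natAdd b i) (fun y => ((Real.log (g y).det.re : ℝ) : ℂ)) x =
      cd (Fin.natAdd b i) (fun y => ((Φ y : ℝ) : ℂ)) x

/-- (FL): `q` is an invariant Hermitian metric on `M`, the kernel of the curvature is a holomorphic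
foliation, and on its leaves `q` is Kähler and flat with volume compatible with `v`. -/
structure FlatFol (b k : ℕ) (G : Type u) (M : Type v) [Group G] [MulAction G M]
    [TopologicalSpace M] [ChartedSpace (Fin (b + k) → ℂ) M]
    (q : M → Matrix (Fin (b + k)) (Fin (b + k)) ℂ) (v : M → ℝ) : Prop where
  herm : HermMetric (b + k) M q
  inv : ∀ γ : G, InvMetric (b + k) q (fun y : M => γ • y)
  chart : ∀ p : M, ∃ r > 0, ∃ ψ : Cn (b + k) → M, FolPar v (ball (0 : Cn b) r) (ball (0 : Cn k) r) ψ ∧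
    InjOn ψ (prodK (ball (0 : Cn b) r) (ball (0 : Cn k) r)) ∧ ψ 0 = p
  flat : ∀ (U : Set (Cn b)) (Δ : Set (Cn k)) (ψ : Cn (b + k) → M), IsOpen U → IsOpen Δ →
    FolPar v U Δ ψ → FlatG (prodK U Δ) (gm q ψ) (lpot (b + k) v ψ)

/-! ## Pseudogroups of affine maps over a base -/

/-- The data of a map `(z, w) ↦ (g z, A z w + β z)` of `ℂᵇ × ℂᵏ`. -/
structure TriK (b k : ℕ) where
  g : Cn b → Cn b
  A : Cn b → Matrix (Fin k) (Fin k) ℂ
  β : Cn b → Cn k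

namespace TriK

variable {b k : ℕ}

/-- The identity. -/
def one : TriK b k := ⟨id, fun _ => 1, fun _ => 0⟩

/-- The action on the fibre coordinate. -/
noncomputable def ap (t : TriK b k) (z : Cn b) (w : Cn k) : Cn k := t.A z *ᵥ w + t.β z

/-- The composition `t ∘ s`. -/
noncomputable def comp (t s : TriK b k) : TriK b k :=
  ⟨fun z => t.g (s.g z), fun z => t.A (s.g z) * s.A z, fun z => t.A (s.g z) *ᵥ s.β z + t.β (s.g z)⟩

/-- `t` and `t'` agree on `U`. -/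
def EqOn (t t' : TriK b k) (U : Set (Cn b)) : Prop :=
  ∀ z ∈ U, t.g z = t'.g z ∧ t.A z = t'.A z ∧ t.β z = t'.β z

/-- `A⁻¹ β`. -/
noncomputable def q (t : TriK b k) (z : Cn b) : Cn k := (t.A z)⁻¹ *ᵥ t.β z

/-- `t` is holomorphic on `U`. -/
def HolOn (t : TriK b k) (U : Set (Cn b)) : Prop :=
  DifferentiableOn ℂ t.g U ∧ (∀ i j, DifferentiableOn ℂ (fun z => t.A z i j) U) ∧
    DifferentiableOn ℂ t.β U

/-- The map `(z, w) ↦ (g z, A z w + β z)`. -/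
noncomputable def map (t : TriK b k) (x : Cn (b + k)) : Cn (b + k) :=
  ptK (t.g (base x)) (t.ap (base x) (fib x))

end TriK

/-- `E : D × ℂᵏ → M`, `D` the disjoint union of the balls of radius `R` about the points `c i`, is a
local parametrization in which the density does not depend on the fibre coordinates and has positive
Levi form in the others, the leaf metric does not depend on the fibre coordinates, and the translates
of the image of `Bd c 1 × (unit ball)` cover `M`. -/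
structure LMapK {b k N : ℕ} (G : Type u) {M : Type v} [Group G] [MulAction G M]
    [TopologicalSpace M] [ChartedSpace (Fin (b + k) → ℂ) M] (v : M → ℝ)
    (q : M → Matrix (Fin (b + k)) (Fin (b + k)) ℂ) (c : Fin N → Cn b) (R : ℝ)
    (E : Cn (b + k) → M) (Φ : Cn b → ℝ) (Hf : Cn b → Matrix (Fin k) (Fin k) ℂ) : Prop where
  posN : 0 < N
  one_lt : 1 < R
  sep : ∀ i j, i ≠ j → 10 * R ≤ ‖c i - c j‖
  par : Par (b + k) E (tubeK k (Bd c R))
  smooth : ContDiffOn ℝ ∞ Φ (Bd c R)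
  pos : ∀ z ∈ Bd c R, ∀ e, e ≠ 0 → 0 < lev Φ z e
  pot : ∀ x ∈ tubeK k (Bd c R), lpot (b + k) v E x = Φ (base x)
  smH : ∀ i j, ContDiffOn ℝ ∞ (fun z => Hf z i j) (Bd c R)
  posH : ∀ z ∈ Bd c R, (Hf z).PosDef
  leaf : ∀ x ∈ tubeK k (Bd c R), gm q E x = Hf (base x)
  cov : ∀ p : M, ∃ γ : G, ∃ z ∈ Bd c 1, ∃ w : Cn k, ‖w‖ < 1 ∧ γ • p = E (ptK z w)

/-- The relation `γ • E x = E y` on `T`. -/
def RelT {n : ℕ} {G : Type u} {M : Type v} [Group G] [MulAction G M] (T : Set (Cn n))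
    (E : Cn n → M) (γ : G) (x y : Cn n) : Prop := x ∈ T ∧ y ∈ T ∧ γ • E x = E y

/-- The maps of pseudogroup type on `U` that belong to the relation `R` on `D × ℂᵏ`. -/
def PMapK {b k : ℕ} (D : Set (Cn b)) {G : Type u} (R : G → Cn (b + k) → Cn (b + k) → Prop)
    (U : Set (Cn b)) (t : TriK b k) : Prop :=
  IsOpen U ∧ U ⊆ D ∧ t.HolOn U ∧ (∀ z ∈ U, t.g z ∈ D ∧ (t.A z).det ≠ 0) ∧
    ∃ γ, ∀ z ∈ U, ∀ w : Cn k, R γ (ptK z w) (ptK (t.g z) (t.ap z w))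

/-- The maps on the ball of radius `4` about `c i` which map some point of the ball of radius `2` into
the union of the balls of radius `2`. -/
def BigK {b k N : ℕ} (c : Fin N → Cn b) (P : Set (Cn b) → TriK b k → Prop) (i : Fin N)
    (t : TriK b k) : Prop :=
  P (ball (c i) 4) t ∧ ∃ z ∈ ball (c i) 2, t.g z ∈ Bd c 2

/-- A complete, proper, cocompact pseudogroup `P` of maps `(z, w) ↦ (g z, A z w + β z)` over the
union `Bd c R` of balls, preserving the density `exp (Φ z)` and the fibre metric `Hf z`. All germs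
between points of `Bd c 2` extend to the balls of radius `4`. -/
structure AFolK {b k N : ℕ} (c : Fin N → Cn b) (R : ℝ) (P : Set (Cn b) → TriK b k → Prop)
    (Φ : Cn b → ℝ) (Hf : Cn b → Matrix (Fin k) (Fin k) ℂ) (C : ℝ) : Prop where
  posb : 0 < b
  posN : 0 < N
  Rge : 8 + 8 * C ≤ R
  Cge : 1 ≤ C
  sep : ∀ i j, i ≠ j → 10 * R ≤ ‖c i - c j‖
  smooth : ContDiffOn ℝ ∞ Φ (Bd c R)
  pos : ∀ z ∈ Bd c R, ∀ e, e ≠ 0 → 0 < lev Φ z e
  smH : ∀ i j, ContDiffOn ℝ ∞ (fun z => Hf z i j) (Bd c R)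
  posH : ∀ z ∈ Bd c R, (Hf z).PosDef
  holo : ∀ U t, P U t → IsOpen U ∧ U ⊆ Bd c R ∧ t.HolOn U ∧
    ∀ z ∈ U, t.g z ∈ Bd c R ∧ (t.A z).det ≠ 0
  pot : ∀ U t, P U t → ∀ z ∈ U, (fderiv ℂ t.g z).det ≠ 0 ∧
    Φ z = Φ (t.g z) + Real.log (‖(fderiv ℂ t.g z).det‖ ^ 2) + Real.log (‖(t.A z).det‖ ^ 2)
  herm : ∀ U t, P U t → ∀ z ∈ U, ∀ u v : Cn k,
    hermi (Hf (t.g z)) (t.A z *ᵥ u) (t.A z *ᵥ v) = hermi (Hf z) u v
  one : ∀ U, IsOpen U → U ⊆ Bd c R → P U TriK.one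
  mono : ∀ U U' t, P U t → IsOpen U' → U' ⊆ U → P U' t
  congr : ∀ U t t', P U t → t.EqOn t' U → P U t'
  comp : ∀ U U' U'' t s, P U t → P U' s → IsOpen U'' → U'' ⊆ U' → MapsTo s.g U'' U →
    P U'' (t.comp s)
  inv : ∀ U t, P U t → ∀ z ∈ U, ∃ s U' U'', P U' s ∧ t.g z ∈ U' ∧ IsOpen U'' ∧ z ∈ U'' ∧ U'' ⊆ U ∧
    MapsTo t.g U'' U' ∧ (s.comp t).EqOn TriK.one U''
  ext : ∀ i, ∀ z ∈ ball (c i) 2, ∀ U t, P U t → z ∈ U → t.g z ∈ Bd c 2 →
    ∃ t' U', P (ball (c i) 4) t' ∧ IsOpen U' ∧ z ∈ U' ∧ U' ⊆ U ∧ t'.EqOn t U'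
  lip : ∀ i t, BigK c P i t → ∀ x ∈ ball (c i) 4, ∀ y ∈ ball (c i) 4,
    ‖t.g x - t.g y‖ ≤ C * ‖x - y‖
  abd : ∀ i t, BigK c P i t → ∀ x ∈ ball (c i) 4, MB (t.A x) C ∧ MB (t.A x)⁻¹ C
  bgr : ∀ i t, BigK c P i t → ∀ x ∈ ball (c i) 4, ∀ y ∈ ball (c i) 4,
    ‖t.β x‖ ≤ C * (1 + ‖t.β y‖)
  fin : ∀ i, ∀ r : ℝ, ∀ s : ℕ → TriK b k, (∀ n, BigK c P i (s n) ∧ ‖(s n).β (c i)‖ ≤ r) →
    ∃ m l, m ≠ l ∧ (s m).EqOn (s l) (ball (c i) 4)
  coc : ∀ z ∈ Bd c R, ∀ w : Cn k, ∃ U t, P U t ∧ z ∈ U ∧ t.g z ∈ Bd c 1 ∧ ‖t.ap z w‖ < 1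
  conn : ∀ S ⊆ Bd c 2, IsOpen S → IsOpen (Bd c 2 \ S) →
    (∀ U t, P U t → ∀ z ∈ U, z ∈ Bd c 2 → t.g z ∈ Bd c 2 → (z ∈ S ↔ t.g z ∈ S)) →
    S = ∅ ∨ S = Bd c 2

/-- `V` is an infinitesimal generator over the ball of radius `3` about `c i`. -/
def InfGenK {b k N : ℕ} (c : Fin N → Cn b) (P : Set (Cn b) → TriK b k → Prop) (i : Fin N)
    (V : Cn b → Cn b) : Prop :=
  DifferentiableOn ℂ V (ball (c i) 3) ∧ ∃ (t : ℕ → TriK b k) (σ : ℕ → ℝ),
    (∀ n, P (ball (c i) 4) (t n)) ∧ (∀ n, 0 < σ n) ∧ Tendsto σ atTop (𝓝 0) ∧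
    ∀ ε > 0, ∀ᶠ n in atTop, ∀ z ∈ ball (c i) 3, ‖(t n).g z - z - (σ n : ℂ) • V z‖ ≤ ε * σ n

/-- The transversal pseudogroup is discrete: maps near the identity act trivially on the base. -/
def DiscK {b k N : ℕ} (c : Fin N → Cn b) (P : Set (Cn b) → TriK b k → Prop) : Prop :=
  ∃ η > 0, ∀ i t, P (ball (c i) 4) t → (∀ z ∈ ball (c i) 3, ‖t.g z - z‖ ≤ η) →
    ∀ z ∈ ball (c i) 4, t.g z = z

/-- A commutative local system of infinitesimal generators. -/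
structure CFamK {b k N : ℕ} (c : Fin N → Cn b) (P : Set (Cn b) → TriK b k → Prop) (m : ℕ)
    (V : Fin m → Cn b → Cn b) : Prop where
  pos : 0 < m
  holo : ∀ l, DifferentiableOn ℂ (V l) (Bd c 3)
  bdd : ∃ B : ℝ, ∀ l, ∀ z ∈ Bd c 3, ‖V l z‖ ≤ B
  indep : ∀ i, ∀ x : Fin m → ℝ, (∀ z ∈ ball (c i) 3, ∑ l, (x l : ℂ) • V l z = 0) → x = 0
  comm : ∀ z ∈ Bd c 3, ∀ j l, fderiv ℂ (V l) z (V j z) = fderiv ℂ (V j) z (V l z)
  gen : ∀ i, ∀ x : Fin m → ℝ, InfGenK c P i fun z => ∑ l, (x l : ℂ) • V l z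
  trans : ∀ U t, P U t → ∀ z ∈ U, z ∈ Bd c 2 → t.g z ∈ Bd c 2 →
    ∃ (B : Matrix (Fin m) (Fin m) ℝ) (U' : Set (Cn b)), B.det ≠ 0 ∧ IsOpen U' ∧ z ∈ U' ∧ U' ⊆ U ∧
      ∀ z' ∈ U', ∀ j, fderiv ℂ t.g z' (V j z') = ∑ l, ((B l j : ℝ) : ℂ) • V l (t.g z')

/-- A Kähler metric on `Bd c R × ℂᵏ` which is invariant under the maps of the pseudogroup. -/
structure KahP {b k N : ℕ} (c : Fin N → Cn b) (R : ℝ) (P : Set (Cn b) → TriK b k → Prop)
    (H : Cn (b + k) → Matrix (Fin (b + k)) (Fin (b + k)) ℂ) : Prop where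
  posDef : ∀ x ∈ tubeK k (Bd c R), (H x).PosDef
  smooth : ∀ i j, ContDiffOn ℝ ∞ (fun x => H x i j) (tubeK k (Bd c R))
  closed : ∀ x ∈ tubeK k (Bd c R), ∀ i j l,
    cd l (fun y => H y i j) x = cd i (fun y => H y l j) x
  inv : ∀ U t, P U t → ∀ x ∈ tubeK k U, ∀ u v : Cn (b + k),
    hermi (H (t.map x)) (fderiv ℂ t.map x u) (fderiv ℂ t.map x v) = hermi (H x) u v

/-- The étale relation `Rel` on `Bd c 2 × ℂᵏ` together with the pseudogroup `P` of its maps and an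
invariant Kähler metric `H`. -/
structure FEtK {b k N : ℕ} (c : Fin N → Cn b) (R : ℝ) {G : Type u} [Group G]
    (Rel : G → Cn (b + k) → Cn (b + k) → Prop) (P : Set (Cn b) → TriK b k → Prop) (Φ : Cn b → ℝ)
    (Hf : Cn b → Matrix (Fin k) (Fin k) ℂ) (C : ℝ)
    (H : Cn (b + k) → Matrix (Fin (b + k)) (Fin (b + k)) ℂ) : Prop where
  fol : AFolK c R P Φ Hf C
  ket : KEt (tubeK k (Bd c 2)) Rel H
  kah : KahP c R P H
  toP : ∀ γ x y, Rel γ x y → ∃ U t, P U t ∧ base x ∈ U ∧ U ⊆ Bd c 2 ∧ MapsTo t.g U (Bd c 2) ∧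
    y = t.map x ∧ ∀ z ∈ U, ∀ w, Rel γ (ptK z w) (ptK (t.g z) (t.ap z w))
  ofP : ∀ U t, P U t → U ⊆ Bd c 2 → MapsTo t.g U (Bd c 2) →
    ∃ γ, ∀ z ∈ U, ∀ w, Rel γ (ptK z w) (ptK (t.g z) (t.ap z w))

/-- The Kähler metric `H` induces the metric `Hf` on the fibres. -/
def FlatFib {b k N : ℕ} (c : Fin N → Cn b) (R : ℝ) (Hf : Cn b → Matrix (Fin k) (Fin k) ℂ)
    (H : Cn (b + k) → Matrix (Fin (b + k)) (Fin (b + k)) ℂ) : Prop :=
  ∀ x ∈ tubeK k (Bd c R), fbl (H x) = Hf (base x)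

/-- `lam 0, …, lam (2k-1)` are holomorphic maps from the balls of radius `3` to `ℂᵏ`, linearly
independent over `ℝ` at every point, whose real span is preserved by the maps of the pseudogroup
(acting by multiplication with `A`). -/
structure PerK {b k N : ℕ} (c : Fin N → Cn b) (P : Set (Cn b) → TriK b k → Prop)
    (lam : Fin (2 * k) → Cn b → Cn k) : Prop where
  holo : ∀ j, DifferentiableOn ℂ (lam j) (Bd c 3)
  bdd : ∃ B : ℝ, 0 < B ∧ ∀ z ∈ Bd c 3, ∀ r : Fin (2 * k) → ℝ,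
    ‖∑ j, (r j : ℂ) • lam j z‖ ≤ B * ‖r‖ ∧ ‖r‖ ≤ B * ‖∑ j, (r j : ℂ) • lam j z‖
  trans : ∀ U t, P U t → ∀ z ∈ U, z ∈ Bd c 2 → t.g z ∈ Bd c 2 →
    ∃ (Q : Matrix (Fin (2 * k)) (Fin (2 * k)) ℝ) (U' : Set (Cn b)), Q.det ≠ 0 ∧ IsOpen U' ∧
      z ∈ U' ∧ U' ⊆ U ∧ ∀ z' ∈ U', ∀ j,
        t.A z' *ᵥ lam j z' = ∑ l, ((Q l j : ℝ) : ℂ) • lam l (t.g z')

/-- The matrix with the columns `lam j z`. -/
def Lm {b k : ℕ} (lam : Fin (2 * k) → Cn b → Cn k) (z : Cn b) :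
    Matrix (Fin k) (Fin (2 * k)) ℂ := Matrix.of fun a j => lam j z a

/-- The matrix `(1/(2i)) conj(L) Ω Lᵗ`. -/
noncomputable def Hiv {b k : ℕ} (lam : Fin (2 * k) → Cn b → Cn k)
    (Om : Matrix (Fin (2 * k)) (Fin (2 * k)) ℝ) (z : Cn b) : Matrix (Fin k) (Fin k) ℂ :=
  (1 / (2 * I)) • ((Lm lam z).map (starRingEnd ℂ) * Om.map (fun r : ℝ => (r : ℂ)) * (Lm lam z)ᵀ)

/-- A polarization of the periods: constant real skew matrices `Om i` (the inverse of the form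
`Im H (L x, L y)`) with `L Ω Lᵗ = 0` and `(1/(2i)) conj(L) Ω Lᵗ` positive definite. -/
structure PolK {b k N : ℕ} (c : Fin N → Cn b) (P : Set (Cn b) → TriK b k → Prop)
    (lam : Fin (2 * k) → Cn b → Cn k) (Om : Fin N → Matrix (Fin (2 * k)) (Fin (2 * k)) ℝ) :
    Prop where
  skew : ∀ i, (Om i)ᵀ = - Om i
  rel : ∀ i, ∀ z ∈ ball (c i) 2, Lm lam z * (Om i).map (fun r : ℝ => (r : ℂ)) * (Lm lam z)ᵀ = 0
  pos : ∀ i, ∀ z ∈ ball (c i) 2, (Hiv lam (Om i) z).PosDef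
  trans : ∀ U t, P U t → ∀ z ∈ U, ∀ i j, z ∈ ball (c i) 2 → t.g z ∈ ball (c j) 2 →
    ∀ Q : Matrix (Fin (2 * k)) (Fin (2 * k)) ℝ,
      (∀ᶠ z' in 𝓝 z, ∀ j, t.A z' *ᵥ lam j z' = ∑ l, ((Q l j : ℝ) : ℂ) • lam l (t.g z')) →
      Q * Om i * Qᵀ = Om j

/-! ## The goals of the sections -/

/-- FG. The goal of Sections F, G of the paper. -/
def S_FGK : Prop := ∀ {b k N : ℕ} (c : Fin N → Cn b) (R : ℝ) (P : Set (Cn b) → TriK b k → Prop)
  (Φ : Cn b → ℝ) (Hf : Cn b → Matrix (Fin k) (Fin k) ℂ) (C : ℝ), AFolK c R P Φ Hf C →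
  DiscK c P ∨ ∃ (m : ℕ) (V : Fin m → Cn b → Cn b), CFamK c P m V

/-- PER. The goal of Section E of the paper, if `H` is flat on the fibres. -/
def S_PERK : Prop := ∀ {b k N : ℕ} (c : Fin N → Cn b) (R : ℝ) (P : Set (Cn b) → TriK b k → Prop)
  (Φ : Cn b → ℝ) (Hf : Cn b → Matrix (Fin k) (Fin k) ℂ) (C : ℝ)
  (H : Cn (b + k) → Matrix (Fin (b + k)) (Fin (b + k)) ℂ), AFolK c R P Φ Hf C →
  KahP c R P H → FlatFib c R Hf H → ∃ (lam : Fin (2 * k) → Cn b → Cn k)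
    (Om : Fin N → Matrix (Fin (2 * k)) (Fin (2 * k)) ℝ), PerK c P lam ∧ PolK c P lam Om

/-- GEO. The goal of Sections C, D of the paper. -/
def S_GEOK : Prop := ∀ {b k : ℕ} {G : Type u} {M : Type v} [Group G] [MulAction G M]
  [TopologicalSpace M] [T2Space M] [ConnectedSpace M] [ChartedSpace (Fin (b + k) → ℂ) M]
  [IsManifold 𝓘(ℂ, Fin (b + k) → ℂ) ω M] {h q : M → Matrix (Fin (b + k)) (Fin (b + k)) ℂ}
  {v : M → ℝ}, 0 < b → DataK b k G M h v → FlatFol b k G M q v →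
  ∃ (N : ℕ) (c : Fin N → Cn b) (R : ℝ) (E : Cn (b + k) → M) (Φ : Cn b → ℝ)
    (Hf : Cn b → Matrix (Fin k) (Fin k) ℂ) (C : ℝ), LMapK G v q c R E Φ Hf ∧
    FEtK c R (RelT (G := G) (tubeK k (Bd c 2)) E)
      (PMapK (Bd c R) (RelT (G := G) (tubeK k (Bd c R)) E)) Φ Hf C (pm (b + k) h E)

end Pool.Agent.Helper95.RK
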